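import Mathlib

/-!
# Linear functionals with large values
-/

set_option autoImplicit false

namespace Pool.Agent.Helper71.ZN

open Filter

/-- one step of the construction -/
theorem step (F : Submodule ℚ ℂ) (a : ℂ) (φ : ℂ →ₗ[ℚ] ℚ) (Z : Finset ℂ)
    (hZ : ∀ z ∈ Z, z ∈ F ⊔ Submodule.span ℚ {a}) (m : ℕ) (B : ℚ) :
    ∃ φ' : ℂ →ₗ[ℚ] ℚ, (∀ z ∈ F, φ' z = φ z) ∧
      ∀ z ∈ Z, z ∉ F → ∀ p, p.Prime → p ≤ m → B < padicNorm p (φ' z) := by
  classical
  by_cases ha : a ∈ F
  · refine ⟨φ, fun z _ => rfl, fun z hz hzF => ?_⟩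
    have h1 := hZ z hz
    rw [sup_eq_left.2 ((Submodule.span_singleton_le_iff_mem _ _).2 ha)] at h1
    exact absurd h1 hzF
  · obtain ⟨ψ, hψa, hψF⟩ := Submodule.exists_le_ker_of_notMem ha
    have hψ : ∀ z ∈ F, ψ z = 0 := fun z hz => hψF hz
    have hψZ : ∀ z ∈ Z, z ∉ F → ψ z ≠ 0 := by
      intro z hz hzF h0
      obtain ⟨f, hf, y, hy, rfl⟩ := Submodule.mem_sup.1 (hZ z hz)
      obtain ⟨q, rfl⟩ := Submodule.mem_span_singleton.1 hy
      rw [map_add, hψ f hf, zero_add, map_smul, smul_eq_mul] at h0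
      rcases mul_eq_zero.1 h0 with h1 | h1
      · apply hzF
        rw [h1, zero_smul, add_zero]
        exact hf
      · exact hψa h1
    -- the number `t`
    have hlim : ∀ p, p.Prime → p ≤ m → ∀ z ∈ Z, z ∉ F → ∀ᶠ N : ℕ in atTop,
        max B (padicNorm p (φ z)) / padicNorm p (ψ z) < ((padicNorm p (m.factorial : ℚ))⁻¹) ^ N := by
      intro p hp hpm z hz hzF
      have := Fact.mk hp
      have h1 : padicNorm p (m.factorial : ℚ) < 1 :=
        (padicNorm.nat_lt_one_iff _).2 ((Nat.Prime.dvd_factorial hp).2 hpm)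
      have h2 : 0 < padicNorm p (m.factorial : ℚ) :=
        lt_of_le_of_ne (padicNorm.nonneg _) (Ne.symm (padicNorm.nonzero
          (by exact_mod_cast (Nat.factorial_ne_zero m))))
      have h3 : 1 < (padicNorm p (m.factorial : ℚ))⁻¹ := (one_lt_inv₀ h2).2 h1
      exact (tendsto_pow_atTop_atTop_of_one_lt h3).eventually_gt_atTop _
    have hall : ∀ᶠ N : ℕ in atTop, ∀ p ∈ (Finset.range (m + 1)).filter Nat.Prime, ∀ z ∈ Z.filter (· ∉ F),
        max B (padicNorm p (φ z)) / padicNorm p (ψ z) < ((padicNorm p (m.factorial : ℚ))⁻¹) ^ N := by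
      rw [Filter.eventually_all_finset]
      intro p hp
      rw [Filter.eventually_all_finset]
      intro z hz
      rw [Finset.mem_filter] at hp hz
      exact hlim p hp.2 (Nat.lt_succ_iff.1 (Finset.mem_range.1 hp.1)) z hz.1 hz.2
    obtain ⟨N, hN⟩ := hall.exists
    refine ⟨φ + (((m.factorial : ℚ))⁻¹ ^ N) • ψ, fun z hz => ?_, fun z hz hzF p hp hpm => ?_⟩
    · rw [LinearMap.add_apply, LinearMap.smul_apply, hψ z hz, smul_zero, add_zero]
    · have := Fact.mk hp
      have h1 := hN p (Finset.mem_filter.2 ⟨Finset.mem_range.2 (Nat.lt_succ_of_le hpm), hp⟩) z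
        (Finset.mem_filter.2 ⟨hz, hzF⟩)
      have h2 : 0 < padicNorm p (ψ z) :=
        lt_of_le_of_ne (padicNorm.nonneg _) (Ne.symm (padicNorm.nonzero (hψZ z hz hzF)))
      rw [div_lt_iff₀ h2] at h1
      have h3 : padicNorm p ((((m.factorial : ℚ))⁻¹ ^ N) * ψ z) =
          ((padicNorm p (m.factorial : ℚ))⁻¹) ^ N * padicNorm p (ψ z) := by
        rw [padicNorm.mul]
        congr 1
        have h4 : ∀ (x : ℚ) (N : ℕ), padicNorm p (x ^ N) = padicNorm p x ^ N := by
          intro x N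
          induction N with
          | zero => simp
          | succ N ih => rw [pow_succ, pow_succ, padicNorm.mul, ih]
        rw [h4]
        congr 1
        rw [inv_eq_one_div, padicNorm.div, padicNorm.one, one_div]
      rw [LinearMap.add_apply, LinearMap.smul_apply, smul_eq_mul]
      rw [← h3] at h1
      have h5 : padicNorm p (φ z) ≠ padicNorm p ((((m.factorial : ℚ))⁻¹ ^ N) * ψ z) :=
        ((le_max_right B (padicNorm p (φ z))).trans_lt h1).ne
      rw [padicNorm.add_eq_max_of_ne h5]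
      exact (le_max_left B (padicNorm p (φ z))).trans_lt (h1.trans_le (le_max_right _ _))

/-- the chain of spaces -/
noncomputable def chain (F₀ : Submodule ℚ ℂ) (a : ℕ → ℂ) : ℕ → Submodule ℚ ℂ
  | 0 => F₀
  | k + 1 => chain F₀ a k ⊔ Submodule.span ℚ {a k}

theorem chain_mono (F₀ : Submodule ℚ ℂ) (a : ℕ → ℂ) : Monotone (chain F₀ a) :=
  monotone_nat_of_le_succ fun _ => le_sup_left

theorem chain_finite {F₀ : Submodule ℚ ℂ} (h : Module.Finite ℚ F₀) (a : ℕ → ℂ) (k : ℕ) :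
    Module.Finite ℚ (chain F₀ a k) := by
  induction k with
  | zero => exact h
  | succ k ih =>
    change Module.Finite ℚ (chain F₀ a k ⊔ Submodule.span ℚ {a k} : Submodule ℚ ℂ)
    infer_instance

/-- **The functional.** -/
theorem exists_phi (F₀ 𝓛 : Submodule ℚ ℂ) (a : ℕ → ℂ) (h𝓛 : ∀ z ∈ 𝓛, ∃ k, z ∈ chain F₀ a k)
    (Z : ℕ → Finset ℂ) (hZ : ∀ k, ∀ z ∈ Z k, z ∈ chain F₀ a (k + 1)) :
    ∃ φ : 𝓛 →ₗ[ℚ] ℚ, (∀ z : 𝓛, (z : ℂ) ∈ F₀ → φ z = 0) ∧
      ∀ k, ∀ z : 𝓛, (z : ℂ) ∈ Z k → (z : ℂ) ∉ chain F₀ a k → ∀ p, p.Prime → p ≤ k →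
        (k : ℚ) < padicNorm p (φ z) := by
  classical
  choose f hf1 hf2 using fun (k : ℕ) (φ : ℂ →ₗ[ℚ] ℚ) =>
    step (chain F₀ a k) (a k) φ (Z k) (hZ k) k (k : ℚ)
  let Φ : ℕ → (ℂ →ₗ[ℚ] ℚ) := fun k => Nat.rec 0 (fun k φ => f k φ) k
  have hΦ : ∀ k, Φ (k + 1) = f k (Φ k) := fun k => rfl
  have hstep : ∀ k, ∀ z ∈ chain F₀ a k, Φ (k + 1) z = Φ k z := by
    intro k z hz
    rw [hΦ]
    exact hf1 k (Φ k) z hz
  have hstab : ∀ k, ∀ z ∈ chain F₀ a k, ∀ d, Φ (k + d) z = Φ k z := by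
    intro k z hz d
    induction d with
    | zero => rfl
    | succ d ih =>
      rw [← add_assoc, hstep (k + d) z (chain_mono F₀ a (Nat.le_add_right k d) hz), ih]
  have hstab' : ∀ k l, ∀ z ∈ chain F₀ a k, z ∈ chain F₀ a l → Φ k z = Φ l z := by
    intro k l z hk hl
    rcases le_total k l with h | h
    · obtain ⟨d, rfl⟩ := Nat.exists_eq_add_of_le h
      exact (hstab k z hk d).symm
    · obtain ⟨d, rfl⟩ := Nat.exists_eq_add_of_le h
      exact hstab l z hl d
  choose κ hκ using h𝓛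
  let φ : 𝓛 →ₗ[ℚ] ℚ :=
    { toFun := fun z => Φ (κ z z.2) z
      map_add' := by
        intro x y
        have h1 := chain_mono F₀ a (le_max_left (κ x x.2) (κ y y.2)) (hκ x x.2)
        have h2 := chain_mono F₀ a (le_max_right (κ x x.2) (κ y y.2)) (hκ y y.2)
        rw [hstab' _ (max (κ x x.2) (κ y y.2)) _ (hκ _ (x + y).2)
            (Submodule.add_mem _ h1 h2), Submodule.coe_add, map_add,
          hstab' _ (max (κ x x.2) (κ y y.2)) _ (hκ x x.2) h1,
          hstab' _ (max (κ x x.2) (κ y y.2)) _ (hκ y y.2) h2]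
      map_smul' := by
        intro c x
        rw [hstab' _ (κ x x.2) _ (hκ _ (c • x).2) (Submodule.smul_mem _ _ (hκ x x.2)),
          Submodule.coe_smul, map_smul]
        rfl }
  have hφ : ∀ (z : 𝓛) (k : ℕ), (z : ℂ) ∈ chain F₀ a k → φ z = Φ k z := by
    intro z k hz
    exact hstab' _ k _ (hκ z z.2) hz
  refine ⟨φ, fun z hz => ?_, fun k z hz hzk p hp hpk => ?_⟩
  · rw [hφ z 0 hz]
    rfl
  · rw [hφ z (k + 1) (hZ k z hz), hΦ]
    exact hf2 k (Φ k) z hz hzk p hp hpk

/-- proper subgroups of the rational numbers are bounded for some prime -/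
theorem proper_bounded (D : AddSubgroup ℚ) (hD : D ≠ ⊤) : ∃ (p : ℕ) (K : ℕ), p.Prime ∧
    ∀ q ∈ D, padicNorm p q ≤ K := by
  classical
  by_contra hcon
  push Not at hcon
  apply hD
  -- a positive integer in `D`
  obtain ⟨q₀, hq₀, hq₀'⟩ := hcon 2 0 Nat.prime_two
  have hq₀0 : q₀ ≠ 0 := by
    rintro rfl
    simp at hq₀'
  set u : ℤ := q₀.num with hu
  have hu0 : u ≠ 0 := Rat.num_ne_zero.2 hq₀0
  have huD : (u : ℚ) ∈ D := by
    have h1 := D.nsmul_mem hq₀ q₀.den
    have h2 : q₀.den • q₀ = (u : ℚ) := by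
      rw [nsmul_eq_mul]
      exact Rat.den_mul_eq_num q₀
    rwa [h2] at h1
  have hzm : ∀ (c : ℤ) (x : ℚ), x ∈ D → (c : ℚ) * x ∈ D := by
    intro c x hx
    have := D.zsmul_mem hx c
    rwa [zsmul_eq_mul] at this
  -- prime powers
  have hpp : ∀ p : ℕ, p.Prime → ∀ e : ℕ, (u : ℚ) / ((p ^ e : ℕ) : ℚ) ∈ D := by
    intro p hp e
    have := Fact.mk hp
    obtain ⟨q, hq, hqn⟩ := hcon p (p ^ e) hp
    have hq0 : q ≠ 0 := by
      rintro rfl
      rw [padicNorm.zero] at hqn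
      exact absurd hqn (not_lt.2 (Nat.cast_nonneg _))
    -- the denominator of `q` is divisible by `p ^ e`
    have hden : p ^ e ∣ q.den := by
      by_contra hnd
      have h1 : padicNorm p q ≤ (p ^ e : ℕ) := by
        have h2 : padicNorm p (q.den : ℚ) * padicNorm p q = padicNorm p (q.num : ℚ) := by
          rw [← padicNorm.mul, Rat.den_mul_eq_num]
        have h3 : padicNorm p (q.num : ℚ) ≤ 1 := padicNorm.of_int _
        have h4 : ¬ padicNorm p ((q.den : ℤ) : ℚ) ≤ (p : ℚ) ^ (-(e : ℤ)) := by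
          rw [← padicNorm.dvd_iff_norm_le]
          exact_mod_cast hnd
        push Not at h4
        have h5 : (0 : ℚ) < (p : ℚ) ^ (-(e : ℤ)) := by
          have : (0 : ℚ) < p := by exact_mod_cast hp.pos
          positivity
        have h6 : padicNorm p q * (p : ℚ) ^ (-(e : ℤ)) ≤ 1 := by
          calc padicNorm p q * (p : ℚ) ^ (-(e : ℤ)) ≤ padicNorm p q * padicNorm p ((q.den : ℤ) : ℚ) :=
                mul_le_mul_of_nonneg_left h4.le (padicNorm.nonneg _)
            _ = padicNorm p (q.num : ℚ) := by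
                rw [mul_comm, ← h2]
                norm_cast
            _ ≤ 1 := h3
        have h7 : (p : ℚ) ^ (-(e : ℤ)) = ((p ^ e : ℕ) : ℚ)⁻¹ := by
          rw [zpow_neg, zpow_natCast]
          push_cast
          rfl
        rw [h7, ← div_eq_mul_inv, div_le_one (by exact_mod_cast pow_pos hp.pos e)] at h6
        exact h6
      exact absurd hqn (not_lt.2 h1)
    obtain ⟨d, hd⟩ := hden
    -- `s / p ^ e` is in `D`
    have h8 : (q.num : ℚ) / ((p ^ e : ℕ) : ℚ) ∈ D := by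
      have h9 := hzm d q hq
      have h10 : ((d : ℤ) : ℚ) * q = (q.num : ℚ) / ((p ^ e : ℕ) : ℚ) := by
        rw [eq_div_iff (by exact_mod_cast (pow_pos hp.pos e).ne')]
        have h11 := Rat.den_mul_eq_num q
        rw [hd] at h11
        rw [← h11]
        push_cast
        ring
      rwa [h10] at h9
    rcases Nat.eq_zero_or_pos e with he | he
    · subst he
      simpa using huD
    · have hcop : IsCoprime q.num ((p ^ e : ℕ) : ℤ) := by
        have h12 : Nat.Coprime q.num.natAbs q.den := q.reduced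
        rw [hd] at h12
        have h13 := Nat.Coprime.coprime_mul_right_right h12
        exact (Int.isCoprime_iff_gcd_eq_one.2 (by
          rw [Int.gcd_eq_natAbs, Int.natAbs_natCast]
          exact h13))
      obtain ⟨x, y, hxy⟩ := hcop
      have h14 : (u : ℚ) / ((p ^ e : ℕ) : ℚ) =
          ((u * x : ℤ) : ℚ) * ((q.num : ℚ) / ((p ^ e : ℕ) : ℚ)) + ((y : ℤ) : ℚ) * (u : ℚ) := by
        have hne : ((p ^ e : ℕ) : ℚ) ≠ 0 := by exact_mod_cast (pow_pos hp.pos e).ne'
        have h15 : (x : ℚ) * q.num + y * ((p ^ e : ℕ) : ℚ) = 1 := by exact_mod_cast hxy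
        field_simp
        push_cast at h15 ⊢
        linear_combination (-(u : ℚ)) * h15
      rw [h14]
      exact D.add_mem (hzm _ _ h8) (hzm _ _ huD)
  -- all denominators
  have hall : ∀ b : ℕ, 0 < b → (u : ℚ) / (b : ℚ) ∈ D := by
    intro b
    induction b using Nat.recOnPosPrimePosCoprime with
    | prime_pow p e hp he => exact fun _ => hpp p hp e
    | zero => intro h; exact absurd h (lt_irrefl 0)
    | one => intro _; simpa using huD
    | coprime b c hb hc hbc ihb ihc =>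
      intro _
      have h1 := ihb (by omega)
      have h2 := ihc (by omega)
      obtain ⟨x, y, hxy⟩ := Nat.isCoprime_iff_coprime.2 hbc
      have hb0 : (b : ℚ) ≠ 0 := by exact_mod_cast (by omega : b ≠ 0)
      have hc0 : (c : ℚ) ≠ 0 := by exact_mod_cast (by omega : c ≠ 0)
      have h3 : (u : ℚ) / ((b * c : ℕ) : ℚ) = (x : ℚ) * ((u : ℚ) / c) + (y : ℚ) * ((u : ℚ) / b) := by
        have h4 : (x : ℚ) * b + y * c = 1 := by exact_mod_cast hxy
        have h5 : ((b * c : ℕ) : ℚ) = (b : ℚ) * c := by push_cast; rfl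
        rw [h5, div_eq_iff (mul_ne_zero hb0 hc0)]
        have h6 : ((x : ℚ) * ((u : ℚ) / c) + (y : ℚ) * ((u : ℚ) / b)) * ((b : ℚ) * c) =
            (u : ℚ) * ((x : ℚ) * b + y * c) := by
          field_simp
        rw [h6, h4, mul_one]
      rw [h3]
      exact D.add_mem (hzm x _ h2) (hzm y _ h1)
  rw [AddSubgroup.eq_top_iff']
  intro r
  have huQ : (u : ℚ) ≠ 0 := by exact_mod_cast hu0
  have h1 := hzm (r / u).num _ (hall (r / u).den (r / u).den_pos)
  have h2 : (((r / u).num : ℤ) : ℚ) * ((u : ℚ) / ((r / u).den : ℚ)) = r := by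
    have h3 : (((r / u).num : ℤ) : ℚ) / ((r / u).den : ℚ) = r / u := Rat.num_div_den _
    rw [mul_div_assoc', mul_comm, mul_div_assoc, h3, mul_div_cancel₀ _ huQ]
  rwa [h2] at h1

end Pool.Agent.Helper71.ZN
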