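import Mathlib
import Pool.Graph.R_pool_sql_team_seeded_620a6dc7.RAC963.KS.Sols
import Pool.Agent.Helper71.MLog.Logs

/-!
# The unit equation in the exponentials of a finite dimensional space of logarithms
-/

set_option autoImplicit false

namespace Pool.Agent.Helper71.ZN

open Finset Module
open Pool.Agent.Helper259.AbsHt (Qbar)

/-- the logarithms of algebraic numbers -/
noncomputable abbrev Lg : Submodule ℚ ℂ :=
  Submodule.span ℚ {z : ℂ | IsAlgebraic ℚ (Complex.exp z)}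

theorem mem_Lg (z : ℂ) : z ∈ Lg ↔ IsAlgebraic ℚ (Complex.exp z) :=
  Pool.Agent.Helper71.MLog.mem_span_logs z

theorem exists_emb : Nonempty (Qbar →+* ℂ) := by
  have h : Algebra.IsAlgebraic ℚ (AlgebraicClosure ℚ) := AlgebraicClosure.isAlgebraic ℚ
  exact ⟨(IsAlgClosed.lift (R := ℚ) (S := AlgebraicClosure ℚ) (M := ℂ)).toRingHom⟩

/-- an embedding -/
noncomputable def ιQ : Qbar →+* ℂ := exists_emb.some

theorem exists_ι {x : ℂ} (hx : IsAlgebraic ℚ x) : ∃ y : Qbar, ιQ y = x := by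
  obtain ⟨P, hP0, hP⟩ := hx
  have hsp : (P.map (algebraMap ℚ Qbar)).Splits := IsAlgClosed.splits _
  have h1 : (P.map (algebraMap ℚ Qbar)).map ιQ = P.map (algebraMap ℚ ℂ) := by
    rw [Polynomial.map_map]
    congr 1
    exact Subsingleton.elim _ _
  have h2 : P.map (algebraMap ℚ Qbar) ≠ 0 := (Polynomial.map_ne_zero_iff
    (algebraMap ℚ Qbar).injective).2 hP0
  have h3 : x ∈ ((P.map (algebraMap ℚ Qbar)).map ιQ).roots := by
    rw [h1, Polynomial.mem_roots ((Polynomial.map_ne_zero_iff (algebraMap ℚ ℂ).injective).2 hP0),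
      Polynomial.IsRoot, Polynomial.eval_map_algebraMap]
    exact hP
  rw [hsp.roots_map] at h3
  obtain ⟨y, -, hy⟩ := Multiset.mem_map.1 h3
  exact ⟨y, hy⟩

/-- **The unit equation.** -/
theorem unit_fin (F : Submodule ℚ ℂ) (hF : F ≤ Lg) (hFf : Module.Finite ℚ F) (n : ℕ)
    (c : Fin (n + 1) → ℂ) (hc : ∀ j, c j ≠ 0 ∧ IsAlgebraic ℚ (c j)) :
    ∃ R : Finset ℂ, ∀ z : Fin (n + 1) → ℂ, (∀ j, z j ∈ F) → ∑ j, c j * Complex.exp (z j) = 0 →
      (∀ J : Finset (Fin (n + 1)), J.Nonempty → ∑ j ∈ J, c j * Complex.exp (z j) = 0 → J = univ) →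
      ∀ i j, Complex.exp (z i - z j) ∈ R := by
  classical
  set b := Module.finBasis ℚ F with hb
  have hexp : ∀ z ∈ Lg, ∃ u : Qbarˣ, ιQ (u : Qbar) = Complex.exp z := by
    intro z hz
    obtain ⟨y, hy⟩ := exists_ι ((mem_Lg z).1 hz)
    have hy0 : y ≠ 0 := by
      rintro rfl
      rw [map_zero] at hy
      exact Complex.exp_ne_zero z hy.symm
    exact ⟨Units.mk0 y hy0, hy⟩
  choose g hg using fun i => hexp ((b i : F) : ℂ) (hF (b i).2)
  choose c' hc' using fun j => exists_ι (hc j).2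
  have hc'0 : ∀ j, c' j ≠ 0 := by
    intro j h0
    apply (hc j).1
    rw [← hc' j, h0, map_zero]
  set Γ : Subgroup Qbarˣ := Subgroup.closure (Set.range g) with hΓ
  have hΓfg : Γ.FG := ⟨(Set.finite_range g).toFinset, by rw [Set.Finite.coe_toFinset]⟩
  obtain ⟨M, hM⟩ := Pool.Agent.RAC963.KS.sols Γ hΓfg n
  obtain ⟨B, hB1, hB⟩ : ∃ B : ℝ, 1 ≤ B ∧ ∀ j, Pool.Agent.Y215.SK.h1 (c' j) ≤ B := by
    refine ⟨1 + ∑ j, |Pool.Agent.Y215.SK.h1 (c' j)|, ?_, fun j => ?_⟩
    · have : 0 ≤ ∑ j, |Pool.Agent.Y215.SK.h1 (c' j)| := Finset.sum_nonneg fun _ _ => abs_nonneg _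
      linarith
    · have h1 := Finset.single_le_sum (f := fun j => |Pool.Agent.Y215.SK.h1 (c' j)|)
        (fun j _ => abs_nonneg _) (Finset.mem_univ j)
      have h2 := le_abs_self (Pool.Agent.Y215.SK.h1 (c' j))
      linarith
  obtain ⟨R, -, -, hR⟩ := hM B hB1 c' hc'0 hB
  refine ⟨R.image ιQ, fun z hz h0 hnd i j => ?_⟩
  choose u hu using fun j => hexp (z j) (hF (hz j))
  have huD : ∀ j, u j ∈ Pool.Agent.Y215.SK.DivHull Γ := by
    intro j
    -- a common denominator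
    obtain ⟨m, hm, a, ha⟩ : ∃ m : ℕ, 0 < m ∧ ∃ a : Fin (finrank ℚ F) → ℤ,
        (m : ℂ) * z j = ∑ i, (a i : ℂ) * ((b i : F) : ℂ) := by
      set q : Fin (finrank ℚ F) → ℚ := fun i => b.repr ⟨z j, hz j⟩ i with hq
      have h1 : z j = ∑ i, (q i : ℂ) * ((b i : F) : ℂ) := by
        have h2 := congrArg (fun z : F => (z : ℂ)) (b.sum_repr ⟨z j, hz j⟩)
        simp only [Submodule.coe_sum, Submodule.coe_smul] at h2
        rw [← h2]
        exact Finset.sum_congr rfl fun i _ => Rat.smul_def _ _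
      refine ⟨∏ i, (q i).den, Finset.prod_pos fun i _ => (q i).den_pos,
        fun i => (q i).num * ∏ l ∈ Finset.univ.erase i, ((q l).den : ℤ), ?_⟩
      rw [h1, Finset.mul_sum]
      refine Finset.sum_congr rfl fun i _ => ?_
      have h3 : ((∏ l, (q l).den : ℕ) : ℂ) = ((q i).den : ℂ) * ∏ l ∈ Finset.univ.erase i, ((q l).den : ℂ) := by
        rw [← Finset.mul_prod_erase Finset.univ (fun l => (q l).den) (Finset.mem_univ i)]
        push_cast
        rfl
      have h4 : ((q i).den : ℂ) * (q i : ℂ) = (q i).num := by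
        exact_mod_cast congrArg (fun x : ℚ => (x : ℂ)) (Rat.den_mul_eq_num (q i))
      rw [h3]
      push_cast
      linear_combination (∏ l ∈ Finset.univ.erase i, ((q l).den : ℂ)) * ((b i : F) : ℂ) * h4
    refine ⟨m, hm, ?_⟩
    have h5 : u j ^ m = ∏ i, g i ^ a i := by
      apply Units.ext
      apply ιQ.injective
      have h6 : ∀ (x : Qbarˣ) (k : ℤ) (w : ℂ), ιQ (x : Qbar) = Complex.exp w →
          ιQ ((x ^ k : Qbarˣ) : Qbar) = Complex.exp (k * w) := by
        intro x k w h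
        rw [Units.val_zpow_eq_zpow_val, map_zpow₀, h, ← Complex.exp_int_mul]
      rw [Units.val_pow_eq_pow_val, map_pow, hu j, ← Complex.exp_nat_mul, ha, Complex.exp_sum,
        Units.coe_prod, map_prod]
      exact Finset.prod_congr rfl fun i _ => (h6 (g i) (a i) _ (hg i)).symm
    rw [h5]
    refine Subgroup.prod_mem _ fun i _ => Subgroup.zpow_mem _ ?_ _
    exact Subgroup.subset_closure ⟨i, rfl⟩
  have hsum : ∀ J : Finset (Fin (n + 1)), ιQ (∑ j ∈ J, c' j * (u j : Qbar)) =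
      ∑ j ∈ J, c j * Complex.exp (z j) := by
    intro J
    rw [map_sum]
    exact Finset.sum_congr rfl fun j _ => by rw [map_mul, hc' j, hu j]
  have h7 := hR u huD (by
    apply ιQ.injective
    rw [hsum, h0, map_zero]) (fun J hJ h8 => hnd J hJ (by rw [← hsum, h8, map_zero])) i j
  refine Finset.mem_image.2 ⟨_, h7, ?_⟩
  rw [map_div₀, hu i, hu j, Complex.exp_sub]

end Pool.Agent.Helper71.ZN
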