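import Mathlib
import Pool.Agent.Helper71.ZN.Phi
import Pool.Agent.Helper71.ZN.Unit

/-!
# A functional on the logarithms with a strong finiteness property
-/

set_option autoImplicit false

namespace Pool.Agent.Helper71.ZN

open Finset Module

/-- `φ z` is bounded by `K` at `p` -/
def Bd (φ : Lg →ₗ[ℚ] ℚ) (p K : ℕ) (z : ℂ) : Prop := ∃ h : z ∈ Lg, padicNorm p (φ ⟨z, h⟩) ≤ K

theorem chain_le {F₀ : Submodule ℚ ℂ} (hF₀ : F₀ ≤ Lg) {a : ℕ → ℂ} (ha : ∀ k, a k ∈ Lg) (k : ℕ) :
    chain F₀ a k ≤ Lg := by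
  induction k with
  | zero => exact hF₀
  | succ k ih => exact sup_le ih ((Submodule.span_singleton_le_iff_mem _ _).2 (ha k))

/-- the type of the equations -/
abbrev Eqn : Type := Σ n : ℕ, (Fin (n + 1) → {c : ℂ // c ≠ 0 ∧ IsAlgebraic ℚ c})

/-- **The functional.** -/
theorem exists_mann (F₀ : Submodule ℚ ℂ) (hF₀ : F₀ ≤ Lg) (hF₀f : Module.Finite ℚ F₀)
    (hπ : (2 * Real.pi * Complex.I : ℂ) ∈ F₀) :
    ∃ φ : Lg →ₗ[ℚ] ℚ, Function.Surjective φ ∧ (∀ z : Lg, (z : ℂ) ∈ F₀ → φ z = 0) ∧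
      ∀ (n : ℕ) (c : Fin (n + 1) → ℂ), (∀ j, c j ≠ 0 ∧ IsAlgebraic ℚ (c j)) → ∀ (p K : ℕ), p.Prime →
        ∃ R : Finset ℂ, ∀ z : Fin (n + 1) → ℂ, (∀ j, Bd φ p K (z j)) →
          ∑ j, c j * Complex.exp (z j) = 0 →
          (∀ J : Finset (Fin (n + 1)), J.Nonempty → ∑ j ∈ J, c j * Complex.exp (z j) = 0 → J = univ) →
          ∀ i j, Complex.exp (z i - z j) ∈ R := by
  classical
  have hcL : Countable Lg := Pool.Agent.Helper71.MLog.countable_logs.to_subtype
  obtain ⟨a', ha'⟩ := exists_surjective_nat Lg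
  set a : ℕ → ℂ := fun k => (a' k : ℂ) with ha
  have haL : ∀ k, a k ∈ Lg := fun k => (a' k).2
  have hLa : ∀ z ∈ Lg, ∃ k, z ∈ chain F₀ a k := by
    intro z hz
    obtain ⟨k, hk⟩ := ha' ⟨z, hz⟩
    refine ⟨k + 1, Submodule.mem_sup_right ?_⟩
    have : a k = z := congrArg Subtype.val hk
    rw [← this]
    exact Submodule.mem_span_singleton_self _
  have hcA : Countable {c : ℂ // c ≠ 0 ∧ IsAlgebraic ℚ c} :=
    ((Algebraic.countable ℚ ℂ).mono fun c hc => hc.2).to_subtype
  have hne : Nonempty {c : ℂ // c ≠ 0 ∧ IsAlgebraic ℚ c} := ⟨⟨1, one_ne_zero, isAlgebraic_one⟩⟩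
  obtain ⟨e, he⟩ := exists_surjective_nat Eqn
  have hex : ∀ k i : ℕ, ∃ R : Finset ℂ, ∀ z : Fin ((e i).1 + 1) → ℂ, (∀ j, z j ∈ chain F₀ a (k + 1)) →
      ∑ j, ((e i).2 j : ℂ) * Complex.exp (z j) = 0 →
      (∀ J : Finset (Fin ((e i).1 + 1)), J.Nonempty →
        ∑ j ∈ J, ((e i).2 j : ℂ) * Complex.exp (z j) = 0 → J = univ) →
      ∀ i' j, Complex.exp (z i' - z j) ∈ R := fun k i =>
    unit_fin (chain F₀ a (k + 1)) (chain_le hF₀ haL _) (chain_finite hF₀f a _) (e i).1
      (fun j => ((e i).2 j : ℂ)) (fun j => ((e i).2 j).2)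
  choose R hR using hex
  let pick : ℕ → ℂ → ℂ := fun k r =>
    if h : ∃ z ∈ chain F₀ a (k + 1), Complex.exp z = r then h.choose else a k
  have hak : ∀ k, a k ∈ chain F₀ a (k + 1) := fun k =>
    Submodule.mem_sup_right (Submodule.mem_span_singleton_self _)
  have hpick : ∀ k r, pick k r ∈ chain F₀ a (k + 1) := by
    intro k r
    by_cases h : ∃ z ∈ chain F₀ a (k + 1), Complex.exp z = r
    · simp only [pick, dif_pos h]
      exact h.choose_spec.1
    · simp only [pick, dif_neg h]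
      exact hak k
  have hpick2 : ∀ k r, (∃ z ∈ chain F₀ a (k + 1), Complex.exp z = r) →
      Complex.exp (pick k r) = r := by
    intro k r h
    simp only [pick, dif_pos h]
    exact h.choose_spec.2
  let Z : ℕ → Finset ℂ := fun k => insert (a k)
    ((Finset.range (k + 1)).biUnion fun i => (R k i).image (pick k))
  obtain ⟨φ, hφ0, hφ⟩ := exists_phi F₀ Lg a hLa Z (by
    intro k z hz
    rcases Finset.mem_insert.1 hz with rfl | hz
    · exact hak k
    · obtain ⟨i, -, hi⟩ := Finset.mem_biUnion.1 hz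
      obtain ⟨r, -, rfl⟩ := Finset.mem_image.1 hi
      exact hpick k r)
  have hφπ : ∀ (z w : ℂ) (hz : z ∈ Lg) (hw : w ∈ Lg), Complex.exp z = Complex.exp w →
      z - w ∈ F₀ ∧ φ ⟨z, hz⟩ = φ ⟨w, hw⟩ := by
    intro z w hz hw h
    obtain ⟨m, hm⟩ := Complex.exp_eq_exp_iff_exists_int.1 h
    have h1 : z - w ∈ F₀ := by
      have h2 : z - w = (m : ℚ) • (2 * Real.pi * Complex.I : ℂ) := by
        rw [hm, Rat.smul_def]
        push_cast
        ring
      rw [h2]
      exact Submodule.smul_mem _ _ hπ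
    refine ⟨h1, ?_⟩
    have h3 := hφ0 (⟨z, hz⟩ - ⟨w, hw⟩) h1
    rw [map_sub] at h3
    exact sub_eq_zero.1 h3
  refine ⟨φ, ?_, hφ0, ?_⟩
  · -- surjectivity
    obtain ⟨k, hk2, hk⟩ : ∃ k, 2 ≤ k ∧ a k ∉ chain F₀ a k := by
      by_contra hcon
      push Not at hcon
      have h1 : ∀ d, chain F₀ a (2 + d) ≤ chain F₀ a 2 := by
        intro d
        induction d with
        | zero => exact le_rfl
        | succ d ih =>
          refine sup_le ih ((Submodule.span_singleton_le_iff_mem _ _).2 ?_)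
          exact ih (hcon (2 + d) (by omega))
      have h2 : Lg ≤ chain F₀ a 2 := by
        intro z hz
        obtain ⟨k, hk⟩ := hLa z hz
        exact h1 k (chain_mono F₀ a (Nat.le_add_left k 2) hk)
      have h3 := chain_finite hF₀f a 2
      exact Pool.Agent.Helper71.MLog.not_finite_logs (Submodule.finiteDimensional_of_le h2)
    have h1 := hφ k ⟨a k, haL k⟩ (Finset.mem_insert_self _ _) hk 2 Nat.prime_two hk2
    have h2 : φ ⟨a k, haL k⟩ ≠ 0 := by
      intro h0
      rw [h0, padicNorm.zero] at h1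
      exact absurd h1 (not_lt.2 (Nat.cast_nonneg k))
    intro r
    refine ⟨(r / φ ⟨a k, haL k⟩) • ⟨a k, haL k⟩, ?_⟩
    rw [map_smul, smul_eq_mul, div_mul_cancel₀ _ h2]
  · intro n c hc p K hp
    have := Fact.mk hp
    obtain ⟨i, hi⟩ := he ⟨n, fun j => ⟨c j, hc j⟩⟩
    -- the equation with number `i`
    have hRi : ∀ k, ∃ R' : Finset ℂ, R' = R k i ∧ ∀ z : Fin (n + 1) → ℂ,
        (∀ j, z j ∈ chain F₀ a (k + 1)) → ∑ j, c j * Complex.exp (z j) = 0 →
        (∀ J : Finset (Fin (n + 1)), J.Nonempty → ∑ j ∈ J, c j * Complex.exp (z j) = 0 → J = univ) →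
        ∀ i' j, Complex.exp (z i' - z j) ∈ R' := by
      intro k
      refine ⟨R k i, rfl, ?_⟩
      have h1 := hR k i
      revert h1
      generalize R k i = R'
      intro h1
      rw [hi] at h1
      exact h1
    choose R' hR' hRs using hRi
    set k₀ : ℕ := max i (max p K) with hk₀
    refine ⟨R' k₀, fun z hz h0 hnd => ?_⟩
    set w : Fin (n + 1) → ℂ := fun j => z j - z 0 with hw
    have hwL : ∀ j, w j ∈ Lg := fun j => Submodule.sub_mem _ (hz j).1 (hz 0).1
    have hwφ : ∀ j, padicNorm p (φ ⟨w j, hwL j⟩) ≤ K := by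
      intro j
      have h1 : (⟨w j, hwL j⟩ : Lg) = ⟨z j, (hz j).1⟩ - ⟨z 0, (hz 0).1⟩ := rfl
      rw [h1, map_sub]
      exact (padicNorm.sub).trans (max_le (hz j).2 (hz 0).2)
    have hsum : ∀ J : Finset (Fin (n + 1)), ∑ j ∈ J, c j * Complex.exp (w j) =
        Complex.exp (-z 0) * ∑ j ∈ J, c j * Complex.exp (z j) := by
      intro J
      rw [Finset.mul_sum]
      refine Finset.sum_congr rfl fun j _ => ?_
      simp only [hw, sub_eq_add_neg, Complex.exp_add]
      ring
    have hw0 : ∑ j, c j * Complex.exp (w j) = 0 := by rw [hsum, h0, mul_zero]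
    have hwnd : ∀ J : Finset (Fin (n + 1)), J.Nonempty → ∑ j ∈ J, c j * Complex.exp (w j) = 0 →
        J = univ := by
      intro J hJ h1
      rw [hsum] at h1
      exact hnd J hJ ((mul_eq_zero.1 h1).resolve_left (Complex.exp_ne_zero _))
    have hP : ∃ k, ∀ j, w j ∈ chain F₀ a k := by
      choose κ hκ using fun j => hLa (w j) (hwL j)
      exact ⟨univ.sup κ, fun j => chain_mono F₀ a (Finset.le_sup (Finset.mem_univ j)) (hκ j)⟩
    set m := Nat.find hP with hm
    have hmP : ∀ j, w j ∈ chain F₀ a m := Nat.find_spec hP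
    rcases le_or_gt m (k₀ + 1) with hle | hgt
    · intro i' j
      have h1 := hRs k₀ w (fun j => chain_mono F₀ a hle (hmP j)) hw0 hwnd i' j
      have h2 : w i' - w j = z i' - z j := by simp only [hw]; ring
      rwa [h2] at h1
    · exfalso
      obtain ⟨k, hk⟩ : ∃ k, m = k + 1 := ⟨m - 1, by omega⟩
      have hnk : ¬ ∀ j, w j ∈ chain F₀ a k := Nat.find_min hP (by omega)
      push Not at hnk
      obtain ⟨j, hj⟩ := hnk
      rw [hk] at hmP
      have h1 := hRs k w hmP hw0 hwnd j 0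
      have h2 : w j - w 0 = w j := by simp only [hw]; ring
      rw [h2, hR'] at h1
      have h3 := hpick2 k (Complex.exp (w j)) ⟨w j, hmP j, rfl⟩
      have h4 : pick k (Complex.exp (w j)) ∈ Z k := by
        refine Finset.mem_insert_of_mem (Finset.mem_biUnion.2 ⟨i, ?_, ?_⟩)
        · rw [Finset.mem_range]
          have : i ≤ k₀ := le_max_left _ _
          omega
        · exact Finset.mem_image_of_mem _ h1
      have h5 : pick k (Complex.exp (w j)) ∈ Lg :=
        chain_le hF₀ haL _ (hpick k _)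
      obtain ⟨h6, h7⟩ := hφπ _ _ h5 (hwL j) h3
      have h8 : pick k (Complex.exp (w j)) ∉ chain F₀ a k := by
        intro h9
        apply hj
        have h10 : w j = pick k (Complex.exp (w j)) - (pick k (Complex.exp (w j)) - w j) := by ring
        rw [h10]
        exact Submodule.sub_mem _ h9 (chain_mono F₀ a (Nat.zero_le k) h6)
      have hpk : p ≤ k := by
        have : p ≤ k₀ := (le_max_left p K).trans (le_max_right _ _)
        omega
      have h9 := hφ k ⟨_, h5⟩ h4 h8 p hp hpk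
      rw [h7] at h9
      have h10 : (K : ℚ) ≤ k := by
        have : K ≤ k₀ := (le_max_right p K).trans (le_max_right _ _)
        exact_mod_cast (by omega : K ≤ k)
      exact absurd h9 (not_lt.2 ((hwφ j).trans h10))

end Pool.Agent.Helper71.ZN
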