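import Mathlib
import Pool.Agent.Helper71.ZN.Mann

/-!
# Large groups of algebraic numbers with the strong Mann property
-/

set_option autoImplicit false

namespace Pool.Agent.Helper71.ZN

open Finset Module

/-- The group of the nonzero algebraic numbers. -/
def algUnits : Subgroup ℂˣ where
  carrier := {x | IsAlgebraic ℚ (x : ℂ)}
  mul_mem' := fun ha hb => by
    simp only [Set.mem_ofPred_eq, Units.val_mul] at *
    exact ha.mul hb
  one_mem' := isAlgebraic_one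
  inv_mem' := by
    intro x hx
    simp only [Set.mem_ofPred_eq, Units.val_inv_eq_inv_val] at *
    exact hx.inv

theorem mem_algUnits (x : ℂˣ) : x ∈ algUnits ↔ IsAlgebraic ℚ (x : ℂ) := Iff.rfl

/-- finiteness of the ratios of the terms of nondegenerate solutions of the linear equations
with algebraic coefficients -/
def MannG (Γ : Subgroup ℂˣ) : Prop :=
  ∀ (n : ℕ) (c : Fin (n + 1) → ℂ), (∀ j, c j ≠ 0 ∧ IsAlgebraic ℚ (c j)) →
    ∃ R : Finset ℂ, ∀ u : Fin (n + 1) → ℂˣ, (∀ j, u j ∈ Γ) → ∑ j, c j * (u j : ℂ) = 0 →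
      (∀ J : Finset (Fin (n + 1)), J.Nonempty → ∑ j ∈ J, c j * (u j : ℂ) = 0 → J = univ) →
      ∀ i j, (u i : ℂ) * (u j : ℂ)⁻¹ ∈ R

theorem log_mem_Lg {x : ℂˣ} (hx : x ∈ algUnits) : Complex.log (x : ℂ) ∈ Lg := by
  rw [mem_Lg, Complex.exp_log x.ne_zero]
  exact hx

theorem eq_of_exp (φ : Lg →ₗ[ℚ] ℚ) (h0 : ∀ z : Lg, (z : ℂ) = 2 * Real.pi * Complex.I → φ z = 0)
    (z w : Lg) (h : Complex.exp (z : ℂ) = Complex.exp (w : ℂ)) : φ z = φ w := by
  obtain ⟨n, hn⟩ := Complex.exp_eq_exp_iff_exists_int.1 h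
  have hp : (2 * Real.pi * Complex.I : ℂ) ∈ Lg := by
    rw [mem_Lg, Complex.exp_two_pi_mul_I]
    exact isAlgebraic_one
  have h1 : z = w + (n : ℚ) • (⟨_, hp⟩ : Lg) := by
    apply Subtype.ext
    rw [Submodule.coe_add, Submodule.coe_smul, hn]
    simp [Rat.smul_def]
  rw [h1, map_add, map_smul, h0 ⟨_, hp⟩ rfl, smul_zero, add_zero]

/-- the homomorphism -/
noncomputable def hom (φ : Lg →ₗ[ℚ] ℚ)
    (h0 : ∀ z : Lg, (z : ℂ) = 2 * Real.pi * Complex.I → φ z = 0) :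
    algUnits →* Multiplicative ℚ :=
  MonoidHom.mk' (fun x => Multiplicative.ofAdd (φ ⟨Complex.log ((x : ℂˣ) : ℂ), log_mem_Lg x.2⟩)) (by
    intro x y
    rw [← ofAdd_add, ← map_add]
    congr 1
    apply eq_of_exp φ h0
    have hx := Complex.exp_log (x : ℂˣ).ne_zero
    have hy := Complex.exp_log (y : ℂˣ).ne_zero
    have hxy := Complex.exp_log ((x * y : algUnits) : ℂˣ).ne_zero
    simp only [Submodule.coe_add, Complex.exp_add, hx, hy, hxy]
    simp)

theorem hom_exp (φ : Lg →ₗ[ℚ] ℚ)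
    (h0 : ∀ z : Lg, (z : ℂ) = 2 * Real.pi * Complex.I → φ z = 0) (x : algUnits) (z : Lg)
    (hz : Complex.exp (z : ℂ) = ((x : ℂˣ) : ℂ)) : hom φ h0 x = Multiplicative.ofAdd (φ z) := by
  change Multiplicative.ofAdd _ = _
  congr 1
  apply eq_of_exp φ h0
  rw [hz]
  exact Complex.exp_log (x : ℂˣ).ne_zero

theorem hom_surj (φ : Lg →ₗ[ℚ] ℚ) (hφ : Function.Surjective φ)
    (h0 : ∀ z : Lg, (z : ℂ) = 2 * Real.pi * Complex.I → φ z = 0) :
    Function.Surjective (hom φ h0) := by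
  intro q
  obtain ⟨z, hz⟩ := hφ (Multiplicative.toAdd q)
  have hx : Units.mk0 (Complex.exp (z : ℂ)) (Complex.exp_ne_zero _) ∈ algUnits :=
    (mem_Lg _).1 z.2
  refine ⟨⟨_, hx⟩, ?_⟩
  rw [hom_exp φ h0 ⟨_, hx⟩ z rfl, hz]
  rfl

/-- **Large groups with the strong Mann property.** -/
theorem exists_group (G : Subgroup ℂˣ) (hG : G.FG) (hGa : G ≤ algUnits) :
    ∃ f : algUnits →* Multiplicative ℚ, Function.Surjective f ∧
      (∀ x : algUnits, ∀ m : ℕ, 0 < m → (x : ℂˣ) ^ m ∈ G → f x = 1) ∧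
      ∀ Γ : Subgroup ℂˣ, (∀ x : algUnits, f x = 1 → (x : ℂˣ) ∈ Γ) → Γ < algUnits → MannG Γ := by
  classical
  obtain ⟨S, hS⟩ := hG
  set F₀ : Submodule ℚ ℂ := Submodule.span ℚ
    ((insert (2 * Real.pi * Complex.I : ℂ) (S.image fun x : ℂˣ => Complex.log (x : ℂ)) : Finset ℂ) :
      Set ℂ) with hF₀
  have hπ : (2 * Real.pi * Complex.I : ℂ) ∈ F₀ :=
    Submodule.subset_span (Finset.mem_coe.2 (Finset.mem_insert_self _ _))
  have hSG : ∀ x ∈ S, x ∈ G := fun x hx => by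
    rw [← hS]
    exact Subgroup.subset_closure hx
  have hF : F₀ ≤ Lg := by
    rw [hF₀, Submodule.span_le]
    intro z hz
    rcases Finset.mem_insert.1 (Finset.mem_coe.1 hz) with rfl | hz
    · rw [SetLike.mem_coe, mem_Lg, Complex.exp_two_pi_mul_I]
      exact isAlgebraic_one
    · obtain ⟨x, hx, rfl⟩ := Finset.mem_image.1 hz
      exact log_mem_Lg (hGa (hSG x hx))
  have hFf : Module.Finite ℚ F₀ := by
    rw [hF₀]
    exact Module.Finite.span_finset ℚ _
  obtain ⟨φ, hφs, hφ0, hφ⟩ := exists_mann F₀ hF hFf hπ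
  have h0 : ∀ z : Lg, (z : ℂ) = 2 * Real.pi * Complex.I → φ z = 0 := by
    intro z hz
    exact hφ0 z (hz ▸ hπ)
  have hGF : ∀ x ∈ G, Complex.log ((x : ℂˣ) : ℂ) ∈ F₀ := by
    intro x hx
    rw [← hS] at hx
    have hlog : ∀ z : ℂ, ∀ y : ℂˣ, Complex.exp z = y → z ∈ F₀ → Complex.log (y : ℂ) ∈ F₀ := by
      intro z y hzy hz
      have h1 : Complex.exp (Complex.log (y : ℂ)) = Complex.exp z := by
        rw [hzy, Complex.exp_log y.ne_zero]
      obtain ⟨n, hn⟩ := Complex.exp_eq_exp_iff_exists_int.1 h1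
      rw [hn]
      refine F₀.add_mem hz ?_
      have h2 : (n : ℂ) * (2 * Real.pi * Complex.I) = (n : ℚ) • (2 * Real.pi * Complex.I : ℂ) := by
        simp [Rat.smul_def]
      rw [h2]
      exact F₀.smul_mem _ hπ
    induction hx using Subgroup.closure_induction with
    | mem x hx =>
      exact Submodule.subset_span (Finset.mem_coe.2 (Finset.mem_insert_of_mem
        (Finset.mem_image_of_mem _ hx)))
    | one => simp
    | mul x y _ _ hx hy =>
      refine hlog (Complex.log (x : ℂ) + Complex.log (y : ℂ)) (x * y) ?_ (F₀.add_mem hx hy)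
      rw [Complex.exp_add, Complex.exp_log x.ne_zero, Complex.exp_log y.ne_zero, Units.val_mul]
    | inv x _ hx =>
      refine hlog (-Complex.log (x : ℂ)) x⁻¹ ?_ (F₀.neg_mem hx)
      rw [Complex.exp_neg, Complex.exp_log x.ne_zero, Units.val_inv_eq_inv_val]
  refine ⟨hom φ h0, hom_surj φ hφs h0, ?_, ?_⟩
  · intro x m hm hx
    have h1 : hom φ h0 (x ^ m) = 1 := by
      have h2 : (((x ^ m : algUnits) : ℂˣ)) ∈ G := by
        simpa using hx
      have h3 := hGF _ h2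
      change Multiplicative.ofAdd (φ ⟨_, _⟩) = 1
      rw [hφ0 _ h3]
      rfl
    rw [map_pow] at h1
    have h2 : (m : ℚ) * Multiplicative.toAdd (hom φ h0 x) = 0 := by
      have h3 := congrArg Multiplicative.toAdd h1
      rw [toAdd_pow, toAdd_one, nsmul_eq_mul] at h3
      exact h3
    have h3 : (m : ℚ) ≠ 0 := by exact_mod_cast hm.ne'
    have h4 := (mul_eq_zero.1 h2).resolve_left h3
    exact congrArg Multiplicative.ofAdd h4
  · intro Γ hΓ hΓlt n c hc
    let D : AddSubgroup ℚ :=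
      { carrier := {q | ∃ x : algUnits, (x : ℂˣ) ∈ Γ ∧ Multiplicative.toAdd (hom φ h0 x) = q}
        zero_mem' := ⟨1, Γ.one_mem, by rw [map_one]; rfl⟩
        add_mem' := by
          rintro _ _ ⟨x, hx, rfl⟩ ⟨y, hy, rfl⟩
          exact ⟨x * y, Γ.mul_mem hx hy, by rw [map_mul]; rfl⟩
        neg_mem' := by
          rintro _ ⟨x, hx, rfl⟩
          exact ⟨x⁻¹, Γ.inv_mem hx, by rw [map_inv]; rfl⟩ }
    have hD : D ≠ ⊤ := by
      intro hD
      refine absurd (le_antisymm hΓlt.le ?_) hΓlt.ne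
      intro x hx
      have h1 : Multiplicative.toAdd (hom φ h0 ⟨x, hx⟩) ∈ D := by
        rw [hD]
        trivial
      obtain ⟨y, hy, hyx⟩ := h1
      have h2 : hom φ h0 (⟨x, hx⟩ * y⁻¹) = 1 := by
        rw [map_mul, map_inv, Multiplicative.toAdd.injective hyx, mul_inv_cancel]
      have h3 := Γ.mul_mem (hΓ _ h2) hy
      simpa using h3
    obtain ⟨p, K, hp, hpK⟩ := proper_bounded D hD
    obtain ⟨R, hR⟩ := hφ n c hc p K hp
    refine ⟨R, fun u hu hsum hnd i j => ?_⟩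
    have hexp : ∀ j, Complex.exp (Complex.log ((u j : ℂˣ) : ℂ)) = u j := fun j =>
      Complex.exp_log (u j).ne_zero
    have h1 := hR (fun j => Complex.log ((u j : ℂˣ) : ℂ)) (fun j =>
      ⟨log_mem_Lg (hΓlt.le (hu j)), hpK _ ⟨⟨u j, hΓlt.le (hu j)⟩, hu j, rfl⟩⟩)
      (by simp only [hexp]; exact hsum) (by simp only [hexp]; exact hnd) i j
    rw [Complex.exp_sub, hexp, hexp, div_eq_mul_inv] at h1
    exact h1

end Pool.Agent.Helper71.ZN
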