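import Mathlib
import Pool.Graph.R_seed8.R948.Opt
import Pool.Agent.Helper71.ZN.Grp

/-!
# The algebraic points of closed sets
-/

set_option autoImplicit false

namespace Pool.Agent.Helper71.ZN

open Finset Module
open Pool.Agent.R948

section

variable {ι : Type} [Fintype ι]

/-- algebraic coefficients -/
def AlgCoef (f : MvPolynomial ι ℂ) : Prop := ∀ m, IsAlgebraic ℚ (f.coeff m)

theorem eval_alg {f : MvPolynomial ι ℂ} (hf : AlgCoef f) {x : ι → ℂ}
    (hx : ∀ i, IsAlgebraic ℚ (x i)) : IsAlgebraic ℚ (MvPolynomial.eval x f) := by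
  rw [MvPolynomial.eval_eq']
  have h : ∀ m ∈ f.support, f.coeff m * ∏ i, x i ^ m i ∈ algebraicClosure ℚ ℂ := by
    intro m _
    refine mul_mem (mem_algebraicClosure_iff.2 (hf m)) (prod_mem fun i _ => pow_mem ?_ _)
    exact mem_algebraicClosure_iff.2 (hx i)
  exact mem_algebraicClosure_iff.1 (sum_mem h)

/-- every polynomial is a linear combination of polynomials with algebraic coefficients which
vanish at its algebraic zeros -/
theorem split_coef (f : MvPolynomial ι ℂ) : ∃ (σ : Type) (T : Finset σ)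
    (g : σ → MvPolynomial ι ℂ) (b : σ → ℂ),
    (∀ s, AlgCoef (g s)) ∧ (∀ x : ι → ℂ, MvPolynomial.eval x f =
      ∑ s ∈ T, MvPolynomial.eval x (g s) * b s) ∧
    ∀ x : ι → ℂ, (∀ i, IsAlgebraic ℚ (x i)) → MvPolynomial.eval x f = 0 →
      ∀ s ∈ T, MvPolynomial.eval x (g s) = 0 := by
  classical
  let B := Basis.ofVectorSpace (algebraicClosure ℚ ℂ) ℂ
  let T : Finset (Basis.ofVectorSpaceIndex (algebraicClosure ℚ ℂ) ℂ) :=
    f.support.biUnion fun m => (B.repr (f.coeff m)).support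
  let g : (Basis.ofVectorSpaceIndex (algebraicClosure ℚ ℂ) ℂ) → MvPolynomial ι ℂ := fun s =>
    ∑ m ∈ f.support, MvPolynomial.monomial m ((B.repr (f.coeff m) s : algebraicClosure ℚ ℂ) : ℂ)
  have hg : ∀ s, AlgCoef (g s) := by
    intro s m
    simp only [g, MvPolynomial.coeff_sum, MvPolynomial.coeff_monomial]
    refine mem_algebraicClosure_iff.1 (sum_mem fun m' _ => ?_)
    split_ifs
    · exact (B.repr (f.coeff m') s).2
    · exact zero_mem _
  have hge : ∀ (s) (x : ι → ℂ), MvPolynomial.eval x (g s) =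
      ∑ m ∈ f.support, ((B.repr (f.coeff m) s : algebraicClosure ℚ ℂ) : ℂ) * ∏ i, x i ^ m i := by
    intro s x
    simp only [g, map_sum, MvPolynomial.eval_monomial, Finsupp.prod_fintype _ _
      (fun i => pow_zero (x i))]
  have hfe : ∀ x : ι → ℂ, MvPolynomial.eval x f =
      ∑ s ∈ T, MvPolynomial.eval x (g s) * ((B s : ℂ)) := by
    intro x
    simp only [hge, Finset.sum_mul]
    rw [Finset.sum_comm, MvPolynomial.eval_eq']
    refine Finset.sum_congr rfl fun m hm => ?_
    have h1 : f.coeff m = ∑ s ∈ T, ((B.repr (f.coeff m) s : algebraicClosure ℚ ℂ) : ℂ) * B s := by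
      conv_lhs => rw [← B.linearCombination_repr (f.coeff m)]
      rw [Finsupp.linearCombination_apply, Finsupp.sum_of_support_subset _
        (s := T) (fun s hs => Finset.mem_biUnion.2 ⟨m, hm, hs⟩) _ (fun s _ => zero_smul _ (B s))]
      rfl
    rw [h1, Finset.sum_mul]
    refine Finset.sum_congr rfl fun s _ => ?_
    rw [← h1]
    ring
  refine ⟨_, T, g, fun s => B s, hg, hfe, fun x hx h s hs => ?_⟩
  have h1 := fun s => mem_algebraicClosure_iff.2 (eval_alg (hg s) hx)
  have h2 : ∑ s ∈ T, (⟨_, h1 s⟩ : algebraicClosure ℚ ℂ) • B s = 0 := by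
    rw [← h, hfe]
    rfl
  have h3 := linearIndependent_iff'.1 B.linearIndependent T _ h2 s hs
  exact congrArg Subtype.val h3

/-- the equations over the algebraic numbers -/
theorem exists_eqs {V : Set (ι → ℂˣ)} (hV : ZClosed V) : ∃ E : Finset (MvPolynomial ι ℂ),
    (∀ f ∈ E, AlgCoef f) ∧ zeros (E : Set (MvPolynomial ι ℂ)) ⊆ V ∧
    ∀ x ∈ V, (∀ i, x i ∈ algUnits) → x ∈ zeros (E : Set (MvPolynomial ι ℂ)) := by
  classical
  obtain ⟨S, rfl⟩ := hV
  let E' : Set (MvPolynomial ι ℂ) := {g | AlgCoef g ∧ ∀ x ∈ zeros S, (∀ i, x i ∈ algUnits) →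
    MvPolynomial.eval (fun i => (x i : ℂ)) g = 0}
  have hE' : zeros E' ⊆ zeros S := by
    intro y hy f hf
    obtain ⟨σ, T, g, b, hg, hfe, h0⟩ := split_coef f
    rw [hfe]
    refine Finset.sum_eq_zero fun s hs => ?_
    have h1 : g s ∈ E' := ⟨hg s, fun x hx hxa => h0 _ (fun i => hxa i) (hx f hf) s hs⟩
    rw [hy _ h1, zero_mul]
  obtain ⟨E, hE, hspan⟩ := (Submodule.fg_span_iff_fg_span_finset_subset E').1
    (IsNoetherian.noetherian (Ideal.span E'))
  refine ⟨E, fun f hf => (hE hf).1, fun y hy => hE' fun f hf => ?_, fun x hx hxa f hf =>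
    (hE hf).2 x hx hxa⟩
  have h1 : f ∈ Submodule.span (MvPolynomial ι ℂ) (E : Set (MvPolynomial ι ℂ)) := by
    rw [← hspan]
    exact Submodule.subset_span hf
  have h2 : Ideal.span (E : Set (MvPolynomial ι ℂ)) ≤ RingHom.ker
      (MvPolynomial.eval (fun i => (y i : ℂ))) := Ideal.span_le.2 fun g hg => hy g hg
  exact h2 h1

end

end Pool.Agent.Helper71.ZN
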