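import Mathlib
import Pool.Agent.Helper71.ZN.Desc

/-!
# Blocks of solutions
-/

set_option autoImplicit false

namespace Pool.Agent.Helper71.ZN

open Finset Module
open Pool.Agent.R948

theorem mann_finset {Γ : Subgroup ℂˣ} (hM : MannG Γ) {β : Type} [DecidableEq β] (J : Finset β)
    (hJ : J.Nonempty) (c : β → ℂ) (hc : ∀ j ∈ J, c j ≠ 0 ∧ IsAlgebraic ℚ (c j)) :
    ∃ R : Finset ℂ, ∀ u : β → ℂˣ, (∀ j ∈ J, u j ∈ Γ) → ∑ j ∈ J, c j * (u j : ℂ) = 0 →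
      (∀ J' ⊆ J, J'.Nonempty → ∑ j ∈ J', c j * (u j : ℂ) = 0 → J' = J) →
      ∀ i ∈ J, ∀ j ∈ J, (u i : ℂ) * (u j : ℂ)⁻¹ ∈ R := by
  obtain ⟨n, hn⟩ := Nat.exists_eq_succ_of_ne_zero hJ.card_pos.ne'
  let e : Fin (n + 1) ≃ J := (Fin.castOrderIso hn.symm).toEquiv.trans J.equivFin.symm
  obtain ⟨R, hR⟩ := hM n (fun j => c (e j)) (fun j => hc _ (e j).2)
  refine ⟨R, fun u hu hsum hnd i hi j hj => ?_⟩
  have hs : ∀ J' : Finset (Fin (n + 1)), ∑ j ∈ J', c (e j) * (u (e j) : ℂ) =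
      ∑ j ∈ J'.map (e.toEmbedding.trans (Function.Embedding.subtype _)), c j * (u j : ℂ) := by
    intro J'
    rw [Finset.sum_map]
    rfl
  have hmap : (univ : Finset (Fin (n + 1))).map
      (e.toEmbedding.trans (Function.Embedding.subtype _)) = J := by
    ext j
    simp only [Finset.mem_map, Finset.mem_univ, true_and, Function.Embedding.trans_apply,
      Equiv.coe_toEmbedding, Function.Embedding.subtype_apply]
    constructor
    · rintro ⟨a, rfl⟩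
      exact (e a).2
    · intro hj
      exact ⟨e.symm ⟨j, hj⟩, by rw [Equiv.apply_symm_apply]⟩
  have h1 := hR (fun j => u (e j)) (fun j => hu _ (e j).2) (by rw [hs, hmap]; exact hsum) (by
    intro J' hJ' hJ'0
    rw [hs] at hJ'0
    have h2 := hnd _ (hmap.subset.trans' (Finset.map_subset_map.2 (Finset.subset_univ _)))
      (Finset.map_nonempty.2 hJ') hJ'0
    exact Finset.map_injective _ (h2.trans hmap.symm)) (e.symm ⟨i, hi⟩) (e.symm ⟨j, hj⟩)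
  simpa using h1

theorem blocks {Γ : Subgroup ℂˣ} (hM : MannG Γ) {β : Type} [DecidableEq β] (s : Finset β)
    (c : β → ℂ) (hc : ∀ j ∈ s, c j ≠ 0 ∧ IsAlgebraic ℚ (c j)) :
    ∃ R : Finset ℂ, ∀ u w : β → ℂˣ, (∀ j ∈ s, u j ∈ Γ) →
      (∀ i ∈ s, ∀ j ∈ s, (u i : ℂ) * (u j : ℂ)⁻¹ ∈ R → w i * (w j)⁻¹ = u i * (u j)⁻¹) →
      ∑ j ∈ s, c j * (u j : ℂ) = 0 → ∑ j ∈ s, c j * (w j : ℂ) = 0 := by
  classical
  have h1 : ∀ J : Finset β, ∃ R : Finset ℂ, J ⊆ s → J.Nonempty → ∀ u : β → ℂˣ, (∀ j ∈ J, u j ∈ Γ) →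
      ∑ j ∈ J, c j * (u j : ℂ) = 0 →
      (∀ J' ⊆ J, J'.Nonempty → ∑ j ∈ J', c j * (u j : ℂ) = 0 → J' = J) →
      ∀ i ∈ J, ∀ j ∈ J, (u i : ℂ) * (u j : ℂ)⁻¹ ∈ R := by
    intro J
    by_cases h : J ⊆ s ∧ J.Nonempty
    · obtain ⟨R, hR⟩ := mann_finset hM J h.2 c (fun j hj => hc j (h.1 hj))
      exact ⟨R, fun _ _ => hR⟩
    · exact ⟨∅, fun h2 h3 => absurd ⟨h2, h3⟩ h⟩
  choose R hR using h1
  refine ⟨s.powerset.biUnion R, fun u w hu huw => ?_⟩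
  have key : ∀ m : ℕ, ∀ J ⊆ s, J.card = m → ∑ j ∈ J, c j * (u j : ℂ) = 0 →
      ∑ j ∈ J, c j * (w j : ℂ) = 0 := by
    intro m
    induction m using Nat.strong_induction_on with
    | _ m ih =>
      intro J hJs hJm hJ0
      rcases J.eq_empty_or_nonempty with rfl | hJ
      · simp
      obtain ⟨J', hJ', hmin⟩ := Finset.exists_min_image
        (J.powerset.filter fun J' => J'.Nonempty ∧ ∑ j ∈ J', c j * (u j : ℂ) = 0)
        Finset.card ⟨J, by simp [hJ, hJ0]⟩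
      rw [Finset.mem_filter, Finset.mem_powerset] at hJ'
      obtain ⟨hJ'J, hJ'ne, hJ'0⟩ := hJ'
      have hnd : ∀ J₁ ⊆ J', J₁.Nonempty → ∑ j ∈ J₁, c j * (u j : ℂ) = 0 → J₁ = J' := by
        intro J₁ h1 h2 h3
        have h4 := hmin J₁ (by
          rw [Finset.mem_filter, Finset.mem_powerset]
          exact ⟨h1.trans hJ'J, h2, h3⟩)
        exact Finset.eq_of_subset_of_card_le h1 h4
      have hrat := hR J' (hJ'J.trans hJs) hJ'ne u (fun j hj => hu j (hJs (hJ'J hj))) hJ'0 hnd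
      obtain ⟨i₀, hi₀⟩ := hJ'ne
      have h5 : ∑ j ∈ J', c j * (w j : ℂ) = 0 := by
        have h6 : ∀ j ∈ J', (w j : ℂ) = (w i₀ : ℂ) * (u i₀ : ℂ)⁻¹ * (u j : ℂ) := by
          intro j hj
          have h7 := huw j (hJs (hJ'J hj)) i₀ (hJs (hJ'J hi₀))
            (Finset.mem_biUnion.2 ⟨J', Finset.mem_powerset.2 (hJ'J.trans hJs),
              hrat j hj i₀ hi₀⟩)
          have h8 : w j = w i₀ * (u i₀)⁻¹ * u j := by
            have h9 : w j = w j * (w i₀)⁻¹ * w i₀ := by group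
            rw [h9, h7, mul_comm, mul_comm (u j), mul_assoc]
          rw [h8]
          simp
        calc ∑ j ∈ J', c j * (w j : ℂ)
            = ∑ j ∈ J', ((w i₀ : ℂ) * (u i₀ : ℂ)⁻¹) * (c j * (u j : ℂ)) :=
              Finset.sum_congr rfl fun j hj => by rw [h6 j hj]; ring
          _ = 0 := by rw [← Finset.mul_sum, hJ'0, mul_zero]
      have h6 : ∑ j ∈ J \ J', c j * (u j : ℂ) = 0 := by
        have h7 := Finset.sum_sdiff (f := fun j => c j * (u j : ℂ)) hJ'J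
        rw [hJ'0, hJ0, add_zero] at h7
        exact h7
      have h7 : (J \ J').card < m := by
        rw [← hJm]
        exact Finset.card_lt_card (Finset.sdiff_ssubset hJ'J ⟨i₀, hi₀⟩)
      have h8 := ih _ h7 (J \ J') (Finset.sdiff_subset.trans hJs) rfl h6
      rw [← Finset.sum_sdiff hJ'J, h8, h5, add_zero]
  exact key s.card s (Finset.Subset.refl s) rfl

section

variable {ι : Type} [Fintype ι]

theorem mon_mem {Γ : Subgroup ℂˣ} {x : ι → ℂˣ} (hx : ∀ i, x i ∈ Γ) (a : ι → ℤ) : mon x a ∈ Γ :=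
  prod_mem fun i _ => zpow_mem (hx i) _

theorem mon_nat (x : ι → ℂˣ) (m : ι →₀ ℕ) :
    ((mon x (fun i => (m i : ℤ)) : ℂˣ) : ℂ) = ∏ i, (x i : ℂ) ^ m i := by
  simp [mon, Units.coe_prod]

theorem mon_sub' (x : ι → ℂˣ) (a b : ι → ℤ) : mon x (a - b) = mon x a * (mon x b)⁻¹ := by
  rw [sub_eq_add_neg, mon_add, mon_neg]

theorem poly_block {Γ : Subgroup ℂˣ} (hM : MannG Γ) (f : MvPolynomial ι ℂ) (hf : AlgCoef f) :
    ∃ (Δ : Finset (ι → ℤ)) (R : Finset ℂ), ∀ x : ι → ℂˣ, (∀ i, x i ∈ Γ) →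
      MvPolynomial.eval (fun i => (x i : ℂ)) f = 0 → ∀ y : ι → ℂˣ,
      (∀ δ ∈ Δ, ((mon x δ : ℂˣ) : ℂ) ∈ R → mon y δ = mon x δ) →
      MvPolynomial.eval (fun i => (y i : ℂ)) f = 0 := by
  classical
  obtain ⟨R, hR⟩ := blocks hM f.support f.coeff
    (fun m hm => ⟨MvPolynomial.mem_support_iff.1 hm, hf m⟩)
  refine ⟨(f.support ×ˢ f.support).image fun mm => (fun i => (mm.1 i : ℤ)) - fun i => (mm.2 i : ℤ),
    R, fun x hx h0 y hy => ?_⟩
  have h1 := hR (fun m => mon x fun i => (m i : ℤ)) (fun m => mon y fun i => (m i : ℤ))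
    (fun m _ => mon_mem hx _) (by
      intro m hm m' hm' hmm
      have h2 := hy ((fun i => (m i : ℤ)) - fun i => (m' i : ℤ))
        (Finset.mem_image.2 ⟨(m, m'), Finset.mem_product.2 ⟨hm, hm'⟩, rfl⟩)
      rw [mon_sub', mon_sub'] at h2
      exact h2 (by simpa using hmm)) (by
      rw [MvPolynomial.eval_eq'] at h0
      rw [← h0]
      exact Finset.sum_congr rfl fun m _ => by rw [mon_nat])
  rw [MvPolynomial.eval_eq', ← h1]
  exact Finset.sum_congr rfl fun m _ => by rw [mon_nat]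

/-- the block theorem for closed sets -/
theorem zeros_block {Γ : Subgroup ℂˣ} (hM : MannG Γ) (hΓ : Γ ≤ algUnits) {V : Set (ι → ℂˣ)}
    (hV : ZClosed V) : ∃ (Δ : Finset (ι → ℤ)) (R : Finset ℂ), ∀ x ∈ V, (∀ i, x i ∈ Γ) →
      ∀ y : ι → ℂˣ, (∀ δ ∈ Δ, ((mon x δ : ℂˣ) : ℂ) ∈ R → mon y δ = mon x δ) → y ∈ V := by
  classical
  obtain ⟨E, hE, hEV, hVE⟩ := exists_eqs hV
  have h1 : ∀ f : MvPolynomial ι ℂ, ∃ (Δ : Finset (ι → ℤ)) (R : Finset ℂ), f ∈ E →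
      ∀ x : ι → ℂˣ, (∀ i, x i ∈ Γ) →
      MvPolynomial.eval (fun i => (x i : ℂ)) f = 0 → ∀ y : ι → ℂˣ,
      (∀ δ ∈ Δ, ((mon x δ : ℂˣ) : ℂ) ∈ R → mon y δ = mon x δ) →
      MvPolynomial.eval (fun i => (y i : ℂ)) f = 0 := by
    intro f
    by_cases hf : f ∈ E
    · obtain ⟨Δ, R, h⟩ := poly_block hM f (hE f hf)
      exact ⟨Δ, R, fun _ => h⟩
    · exact ⟨∅, ∅, fun h => absurd h hf⟩
  choose Δ R h using h1
  refine ⟨E.biUnion Δ, E.biUnion R, fun x hx hxΓ y hy => hEV fun f hf => ?_⟩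
  refine h f hf x hxΓ (hVE x hx (fun i => hΓ (hxΓ i)) f hf) y fun δ hδ hδR => ?_
  exact hy δ (Finset.mem_biUnion.2 ⟨f, hf, hδ⟩) (Finset.mem_biUnion.2 ⟨f, hf, hδR⟩)

end

end Pool.Agent.Helper71.ZN
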