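import Mathlib
import Pool.Agent.Helper71.ZN.Grp

/-!
# The filtration of the algebraic numbers by large groups
-/

set_option autoImplicit false

namespace Pool.Agent.Helper71.ZN

variable (f : algUnits →* Multiplicative ℚ) (p : ℕ) [hp : Fact p.Prime]

/-- the groups of the numbers with bounded value -/
def lvl (K : ℕ) : Subgroup ℂˣ where
  carrier := {x | ∃ h : x ∈ algUnits,
    padicNorm p (Multiplicative.toAdd (f ⟨x, h⟩)) ≤ (p : ℚ) ^ K}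
  one_mem' := ⟨one_mem _, by
    have h : f ⟨1, one_mem _⟩ = 1 := map_one f
    rw [h, toAdd_one, padicNorm.zero]
    positivity⟩
  mul_mem' := by
    rintro x y ⟨hx, hx'⟩ ⟨hy, hy'⟩
    refine ⟨mul_mem hx hy, ?_⟩
    have h : f ⟨x * y, mul_mem hx hy⟩ = f ⟨x, hx⟩ * f ⟨y, hy⟩ := map_mul f ⟨x, hx⟩ ⟨y, hy⟩
    rw [h, toAdd_mul]
    exact (padicNorm.nonarchimedean).trans (max_le hx' hy')
  inv_mem' := by
    rintro x ⟨hx, hx'⟩
    refine ⟨inv_mem hx, ?_⟩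
    have h : f ⟨x⁻¹, inv_mem hx⟩ = (f ⟨x, hx⟩)⁻¹ := map_inv f ⟨x, hx⟩
    rw [h, toAdd_inv, padicNorm.neg]
    exact hx'

theorem mem_lvl (K : ℕ) (x : ℂˣ) : x ∈ lvl f p K ↔ ∃ h : x ∈ algUnits,
    padicNorm p (Multiplicative.toAdd (f ⟨x, h⟩)) ≤ (p : ℚ) ^ K := Iff.rfl

theorem one_le_p : (1 : ℚ) ≤ p := by exact_mod_cast hp.out.one_le

theorem ker_le_lvl (K : ℕ) (x : algUnits) (hx : f x = 1) : (x : ℂˣ) ∈ lvl f p K := by
  refine ⟨x.2, ?_⟩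
  have h : f ⟨x, x.2⟩ = 1 := hx
  rw [h, toAdd_one, padicNorm.zero]
  positivity

theorem lvl_mono : Monotone (lvl f p) := by
  intro K L h x hx
  obtain ⟨h1, h2⟩ := hx
  exact ⟨h1, h2.trans (pow_le_pow_right₀ (one_le_p p) h)⟩

theorem lvl_le (K : ℕ) : lvl f p K ≤ algUnits := fun _ hx => hx.1

theorem norm_pow (m : ℕ) : padicNorm p ((p : ℚ) ^ m) = ((p : ℚ) ^ m)⁻¹ := by
  induction m with
  | zero => simp
  | succ m ih =>
    rw [pow_succ, padicNorm.mul, ih, padicNorm.padicNorm_p hp.out.one_lt, mul_inv]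

theorem lvl_lt (hf : Function.Surjective f) (K : ℕ) : lvl f p K < algUnits := by
  refine lt_of_le_of_ne (lvl_le f p K) fun h => ?_
  obtain ⟨x, hx⟩ := hf (Multiplicative.ofAdd (((p : ℚ) ^ (K + 1))⁻¹))
  have h1 : (x : ℂˣ) ∈ lvl f p K := by
    rw [h]
    exact x.2
  obtain ⟨h2, h3⟩ := h1
  have h4 : f ⟨x, h2⟩ = Multiplicative.ofAdd (((p : ℚ) ^ (K + 1))⁻¹) := hx
  have h5 : (1 : ℚ) < p := by exact_mod_cast hp.out.one_lt
  have h6 : padicNorm p (((p : ℚ) ^ (K + 1))⁻¹) = (p : ℚ) ^ (K + 1) := by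
    rw [← one_div, padicNorm.div, norm_pow, padicNorm.one, one_div, inv_inv]
  rw [h4, toAdd_ofAdd, h6] at h3
  have h7 := (pow_le_pow_iff_right₀ h5).1 h3
  omega

theorem lvl_union (x : ℂˣ) (hx : x ∈ algUnits) : ∃ K, x ∈ lvl f p K := by
  have h5 : (1 : ℚ) < p := by exact_mod_cast hp.out.one_lt
  obtain ⟨K, hK⟩ := pow_unbounded_of_one_lt (padicNorm p (Multiplicative.toAdd (f ⟨x, hx⟩))) h5
  exact ⟨K, hx, hK.le⟩

theorem lvl_pow (K : ℕ) (x : ℂˣ) (hx : x ∈ lvl f p (K + 1)) : x ^ p ∈ lvl f p K := by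
  obtain ⟨h1, h2⟩ := hx
  refine ⟨pow_mem h1 p, ?_⟩
  have h : f ⟨x ^ p, pow_mem h1 p⟩ = f ⟨x, h1⟩ ^ p := map_pow f ⟨x, h1⟩ p
  have hp0 : (0 : ℚ) < p := by exact_mod_cast hp.out.pos
  rw [h, toAdd_pow, nsmul_eq_mul, padicNorm.mul, padicNorm.padicNorm_p hp.out.one_lt]
  rw [pow_succ] at h2
  rw [inv_mul_le_iff₀ hp0, mul_comm]
  exact h2

end Pool.Agent.Helper71.ZN
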