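import Mathlib
import Pool.Agent.Helper71.ZN.Block

/-!
# The Mordell-Lang property
-/

set_option autoImplicit false

namespace Pool.Agent.Helper71.ZN

open Finset Module
open Pool.Agent.R948

section

variable {ι : Type} [Fintype ι]

/-- the space spanned by finitely many integral vectors -/
def spn (D : Finset (ι → ℤ)) : Submodule ℚ (ι → ℚ) :=
  Submodule.span ℚ ((incl ι) '' (D : Set (ι → ℤ)))

theorem spn_mul (D : Finset (ι → ℤ)) {v : ι → ℚ} (hv : v ∈ spn D) :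
    ∃ M : ℕ, 0 < M ∧ ∃ e ∈ Submodule.span ℤ (D : Set (ι → ℤ)), ∀ i, (e i : ℚ) = M * v i := by
  refine Submodule.span_induction (p := fun v _ => ∃ M : ℕ, 0 < M ∧
    ∃ e ∈ Submodule.span ℤ (D : Set (ι → ℤ)), ∀ i, (e i : ℚ) = M * v i) ?_ ?_ ?_ ?_ hv
  · rintro _ ⟨a, ha, rfl⟩
    exact ⟨1, one_pos, a, Submodule.subset_span ha, fun i => by simp [incl]⟩
  · exact ⟨1, one_pos, 0, Submodule.zero_mem _, fun i => by simp⟩
  · rintro v w _ _ ⟨M, hM, e, he, h⟩ ⟨M', hM', e', he', h'⟩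
    refine ⟨M * M', Nat.mul_pos hM hM', (M' : ℤ) • e + (M : ℤ) • e',
      Submodule.add_mem _ (Submodule.smul_mem _ _ he) (Submodule.smul_mem _ _ he'), fun i => ?_⟩
    simp only [Pi.add_apply, Pi.smul_apply, smul_eq_mul]
    push_cast
    rw [h, h']
    ring
  · rintro q v _ ⟨M, hM, e, he, h⟩
    refine ⟨M * q.den, Nat.mul_pos hM q.den_pos, q.num • e, Submodule.smul_mem _ _ he,
      fun i => ?_⟩
    simp only [Pi.smul_apply, smul_eq_mul]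
    push_cast
    rw [h]
    have h1 : (q.num : ℚ) = q * q.den := (Rat.mul_den_eq_num q).symm
    rw [h1]
    ring

theorem lat_mul (D : Finset (ι → ℤ)) {a : ι → ℤ} (ha : a ∈ lat (spn D)) :
    ∃ M : ℕ, 0 < M ∧ (M : ℤ) • a ∈ Submodule.span ℤ (D : Set (ι → ℤ)) := by
  obtain ⟨M, hM, e, he, h⟩ := spn_mul D (mem_lat.1 ha)
  refine ⟨M, hM, ?_⟩
  have h1 : (M : ℤ) • a = e := by
    funext i
    have h2 := h i
    have h3 : (((M : ℤ) * a i : ℤ) : ℚ) = (e i : ℚ) := by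
      push_cast
      rw [h2]
    exact_mod_cast h3
  rw [h1]
  exact he

theorem span_val (D : Finset (ι → ℤ)) (R : Finset ℂ) {a : ι → ℤ}
    (ha : a ∈ Submodule.span ℤ (D : Set (ι → ℤ))) : ∃ T : Set ℂˣ, T.Finite ∧
      ∀ x : ι → ℂˣ, (∀ δ ∈ D, ((mon x δ : ℂˣ) : ℂ) ∈ R) → mon x a ∈ T := by
  refine Submodule.span_induction (p := fun a _ => ∃ T : Set ℂˣ, T.Finite ∧
      ∀ x : ι → ℂˣ, (∀ δ ∈ D, ((mon x δ : ℂˣ) : ℂ) ∈ R) → mon x a ∈ T) ?_ ?_ ?_ ?_ ha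
  · intro a ha
    refine ⟨Units.val ⁻¹' (R : Set ℂ), R.finite_toSet.preimage Units.val_injective.injOn,
      fun x hx => hx a ha⟩
  · exact ⟨{1}, Set.finite_singleton _, fun x _ => by simp [mon]⟩
  · rintro a b _ _ ⟨T, hT, h⟩ ⟨T', hT', h'⟩
    refine ⟨Set.image2 (fun s t => s * t) T T', hT.image2 _ hT', fun x hx => ?_⟩
    rw [mon_add]
    exact Set.mem_image2_of_mem (h x hx) (h' x hx)
  · rintro n a _ ⟨T, hT, h⟩
    refine ⟨(fun s => s ^ n) '' T, hT.image _, fun x hx => ?_⟩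
    rw [mon_smul]
    exact Set.mem_image_of_mem _ (h x hx)

theorem pow_finite (M : ℕ) (hM : 0 < M) (b : ℂˣ) : {t : ℂˣ | t ^ M = b}.Finite := by
  classical
  refine ((Polynomial.nthRoots M (b : ℂ)).toFinset.finite_toSet.preimage
    (Units.val_injective.injOn)).subset ?_
  intro t ht
  rw [Set.mem_preimage, Finset.mem_coe, Multiset.mem_toFinset, Polynomial.mem_nthRoots hM]
  have h1 : t ^ M = b := ht
  rw [← h1, Units.val_pow_eq_pow_val]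

theorem lat_val (D : Finset (ι → ℤ)) (R : Finset ℂ) {a : ι → ℤ} (ha : a ∈ lat (spn D)) :
    ∃ T : Set ℂˣ, T.Finite ∧
      ∀ x : ι → ℂˣ, (∀ δ ∈ D, ((mon x δ : ℂˣ) : ℂ) ∈ R) → mon x a ∈ T := by
  obtain ⟨M, hM, h⟩ := lat_mul D ha
  obtain ⟨T, hT, h1⟩ := span_val D R h
  refine ⟨(fun t => t ^ M) ⁻¹' T, hT.preimage' fun b _ => pow_finite M hM b, fun x hx => ?_⟩
  have h2 := h1 x hx
  rw [mon_smul, zpow_natCast] at h2
  exact h2

theorem cst_finite (D : Finset (ι → ℤ)) (R : Finset ℂ) :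
    {C : Set (ι → ℂˣ) | ∃ x : ι → ℂˣ, (∀ δ ∈ D, ((mon x δ : ℂˣ) : ℂ) ∈ R) ∧
      C = cst (spn D) x}.Finite := by
  classical
  obtain ⟨A, hA⟩ := (IsNoetherian.noetherian (lat (spn D)) : (lat (spn D)).FG)
  have hAl : ∀ a ∈ A, a ∈ lat (spn D) := fun a ha => by
    rw [← hA]
    exact Submodule.subset_span ha
  choose T hT hT2 using fun a : A => lat_val D R (hAl a a.2)
  refine ((Set.Finite.pi' hT).image fun (w : A → ℂˣ) =>
    {y : ι → ℂˣ | ∀ a : A, mon y a = w a}).subset ?_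
  rintro _ ⟨x, hx, rfl⟩
  refine ⟨fun a => mon x a, fun a => hT2 a x hx, ?_⟩
  ext y
  constructor
  · intro hy a ha
    have h1 : a ∈ Submodule.span ℤ (A : Set (ι → ℤ)) := by
      rw [hA]
      exact mem_lat.2 ha
    refine Submodule.span_induction (p := fun a _ => mon y a = mon x a) ?_ ?_ ?_ ?_ h1
    · exact fun a ha => hy ⟨a, ha⟩
    · simp [mon]
    · intro a b _ _ h2 h3
      rw [mon_add, mon_add, h2, h3]
    · intro n a _ h2
      rw [mon_smul, mon_smul, h2]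
  · intro hy a
    exact hy a (mem_lat.1 (hAl a a.2))

theorem mem_cst_self (W : Submodule ℚ (ι → ℚ)) (x : ι → ℂˣ) : x ∈ cst W x := fun _ _ => rfl

/-- **The Mordell-Lang property** -/
theorem mordell_lang {Γ : Subgroup ℂˣ} (hM : MannG Γ) (hΓ : Γ ≤ algUnits) {V : Set (ι → ℂˣ)}
    (hV : ZClosed V) : ∃ 𝒞 : Set (Set (ι → ℂˣ)), 𝒞.Finite ∧
      (∀ C ∈ 𝒞, C ⊆ V ∧ ∃ (W : Submodule ℚ (ι → ℚ)) (g : ι → ℂˣ), (∀ i, g i ∈ Γ) ∧ C = cst W g) ∧
      ∀ x ∈ V, (∀ i, x i ∈ Γ) → ∃ W : Submodule ℚ (ι → ℚ), cst W x ∈ 𝒞 := by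
  classical
  obtain ⟨Δ, R, h⟩ := zeros_block hM hΓ hV
  let Dx : (ι → ℂˣ) → Finset (ι → ℤ) := fun x => Δ.filter fun δ => ((mon x δ : ℂˣ) : ℂ) ∈ R
  refine ⟨{C | ∃ x ∈ V, (∀ i, x i ∈ Γ) ∧ C = cst (spn (Dx x)) x}, ?_, ?_, ?_⟩
  · refine (Set.Finite.biUnion Δ.powerset.finite_toSet fun D _ => cst_finite D R).subset ?_
    rintro _ ⟨x, hx, hxΓ, rfl⟩
    refine Set.mem_biUnion (x := Dx x) (Finset.mem_coe.2 (Finset.mem_powerset.2
      (Finset.filter_subset _ _))) ⟨x, fun δ hδ => (Finset.mem_filter.1 hδ).2, rfl⟩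
  · rintro _ ⟨x, hx, hxΓ, rfl⟩
    refine ⟨fun y hy => h x hx hxΓ y fun δ hδ hδR => hy δ ?_, _, x, hxΓ, rfl⟩
    exact Submodule.subset_span ⟨δ, Finset.mem_coe.2 (Finset.mem_filter.2 ⟨hδ, hδR⟩), rfl⟩
  · exact fun x hx hxΓ => ⟨_, x, hx, hxΓ, rfl⟩

end

end Pool.Agent.Helper71.ZN
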