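import Mathlib
import Pool.Agent.Helper71.ZN.ML

/-!
# Optimal points and Zilber's conjecture for the points in large groups
-/

set_option autoImplicit false
set_option linter.unusedSectionVars false

namespace Pool.Agent.Helper71.ZN

open Finset Module
open Pool.Agent.R948

section

variable {ι : Type} [Fintype ι]

theorem le_of_int {W₁ W₂ : Submodule ℚ (ι → ℚ)}
    (h : ∀ a : ι → ℤ, (fun i => (a i : ℚ)) ∈ W₁ → (fun i => (a i : ℚ)) ∈ W₂) : W₁ ≤ W₂ := by
  intro v hv
  obtain ⟨N, hN, a, ha⟩ := exists_mul_int v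
  have h1 : (fun i => (a i : ℚ)) = (N : ℚ) • v := by
    funext i
    rw [ha]
    rfl
  have h2 := h a (by rw [h1]; exact W₁.smul_mem _ hv)
  have h3 : v = (N : ℚ)⁻¹ • (fun i => (a i : ℚ)) := by
    have h4 : (N : ℚ) ≠ 0 := by exact_mod_cast hN.ne'
    rw [h1, smul_smul, inv_mul_cancel₀ h4, one_smul]
  rw [h3]
  exact W₂.smul_mem _ h2

theorem rel_pt_iff {A : Set (ι → ℂˣ)} (hA : Subvariety A) (a : ι → ℤ) :
    (fun i => (a i : ℚ)) ∈ rel (toTP hA).pt ↔ ∃ N : ℕ, 0 < N ∧ ∀ x ∈ A, mon x a ^ N = 1 := by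
  have key : ∀ N : ℕ, mon (toTP hA).pt a ^ N = 1 ↔ ∀ x ∈ A, mon x a ^ N = 1 := by
    intro N
    have h1 : mon (toTP hA).pt a ^ N = mon (toTP hA).pt ((N : ℤ) • a) := by
      rw [mon_smul, zpow_natCast]
    have h2 : binom (1 : ℂ) ((N : ℤ) • a) ∈ (toTP hA).I ↔ ∀ x ∈ A, mon x a ^ N = 1 := by
      constructor
      · intro h x hx
        have h4 : MvPolynomial.eval (fun i => (x i : ℂ)) (binom (1 : ℂ) ((N : ℤ) • a)) = 0 :=
          h x hx
        rw [ev_eq, aeval_binom, mon_smul, zpow_natCast] at h4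
        apply Units.ext
        rw [h4]
        simp
      · intro h x hx
        rw [ev_eq, aeval_binom, mon_smul, zpow_natCast, h x hx]
        simp
    rw [h1, ← h2, binom_mem]
    constructor
    · intro h
      rw [h]
      simp
    · intro h
      apply Units.ext
      rw [h]
      simp
  rw [mem_rel_int]
  exact exists_congr fun N => and_congr_right fun _ => key N

theorem defect_formula {A : Set (ι → ℂˣ)} (hA : Subvariety A) :
    defect A = (Fintype.card ι : ℤ) - finrank ℚ (rel (toTP hA).pt) - vdim A := by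
  obtain ⟨x₀, hx₀⟩ := hA.nonempty
  obtain ⟨d, hd, hcst⟩ := cst_main (k := ℂ) (rel (toTP hA).pt)
  rw [defect, (hull_eq hA x₀ hx₀).1, (hcst x₀).2]
  omega

theorem vdim_cst (W : Submodule ℚ (ι → ℚ)) (g : ι → ℂˣ) :
    (vdim (cst W g) : ℤ) = (Fintype.card ι : ℤ) - finrank ℚ W := by
  obtain ⟨d, hd, hcst⟩ := cst_main (k := ℂ) W
  rw [(hcst g).2]
  omega

theorem cst_sub (W : Submodule ℚ (ι → ℚ)) (g : ι → ℂˣ) : Subvariety (cst W g) := by
  obtain ⟨d, hd, hcst⟩ := cst_main (k := ℂ) W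
  exact (hcst g).1

theorem cst_top (x : ι → ℂˣ) : cst ⊤ x = {x} := by
  classical
  ext y
  rw [Set.mem_singleton_iff]
  constructor
  · intro hy
    funext i
    have h1 := hy (Pi.single i 1) trivial
    have h2 : ∀ z : ι → ℂˣ, mon z (Pi.single i 1 : ι → ℤ) = z i := by
      intro z
      rw [mon, Finset.prod_eq_single i]
      · simp
      · intro j' _ hj'
        rw [Pi.single_eq_of_ne hj', zpow_zero]
      · intro h
        exact absurd (Finset.mem_univ i) h
    rw [h2, h2] at h1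
    exact h1
  · rintro rfl
    exact mem_cst_self _ _

theorem point_sub (x : ι → ℂˣ) : Subvariety {x} := by
  rw [← cst_top]
  exact cst_sub _ _

/-- the defect of a coset is at most the defect of each of its points -/
theorem defect_cst_le (W : Submodule ℚ (ι → ℚ)) (x : ι → ℂˣ) :
    defect (cst W x) ≤ defect ({x} : Set (ι → ℂˣ)) := by
  have h1 : (vdim ({x} : Set (ι → ℂˣ)) : ℤ) = 0 := by
    rw [← cst_top, vdim_cst, finrank_top, Module.finrank_pi, sub_self]
  have h2 : rel (toTP (point_sub x)).pt ≤ rel x := by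
    refine le_of_int fun a ha => ?_
    obtain ⟨N, hN, h⟩ := (rel_pt_iff _ a).1 ha
    exact (mem_rel_int x a).2 ⟨N, hN, h x rfl⟩
  have h3 : rel x ⊓ W ≤ rel (toTP (cst_sub W x)).pt := by
    refine le_of_int fun a ha => ?_
    obtain ⟨N, hN, h⟩ := (mem_rel_int x a).1 ha.1
    refine (rel_pt_iff _ a).2 ⟨N, hN, fun y hy => ?_⟩
    rw [hy a ha.2, h]
  rw [defect_formula (cst_sub W x), defect_formula (point_sub x), h1, vdim_cst]
  have h4 := Submodule.finrank_mono h2
  have h5 := Submodule.finrank_mono h3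
  have h6 := Submodule.finrank_sup_add_finrank_inf_eq (rel x) W
  have h7 : finrank ℚ (rel x ⊔ W : Submodule ℚ (ι → ℚ)) ≤ Fintype.card ι := by
    have h := Submodule.finrank_le (rel x ⊔ W)
    rwa [Module.finrank_pi] at h
  omega

theorem finite_optimal_points {Γ : Subgroup ℂˣ} (hM : MannG Γ) (hΓ : Γ ≤ algUnits)
    {V : Set (ι → ℂˣ)} (hV : ZClosed V) :
    {x : ι → ℂˣ | (∀ i, x i ∈ Γ) ∧ Optimal {x} V}.Finite := by
  obtain ⟨𝒞, h𝒞, h1, h2⟩ := mordell_lang hM hΓ hV
  refine (h𝒞.preimage (f := fun x : ι → ℂˣ => ({x} : Set (ι → ℂˣ)))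
    (Set.singleton_injective.injOn)).subset ?_
  rintro x ⟨hxΓ, hopt⟩
  obtain ⟨hsub, hxV, hopt⟩ := hopt
  obtain ⟨W, hW⟩ := h2 x (hxV rfl) hxΓ
  by_cases hWx : cst W x = {x}
  · rw [hWx] at hW
    exact hW
  · refine absurd (defect_cst_le W x) (hopt _ (cst_sub W x) ?_ (h1 _ hW).1)
    refine ⟨?_, fun h => hWx (Set.Subset.antisymm h ?_)⟩
    · rintro _ rfl
      exact mem_cst_self _ _
    · rintro _ rfl
      exact mem_cst_self _ _

end

end Pool.Agent.Helper71.ZN
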