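import Mathlib
import Pool.Graph.R_pool_sql_team_seeded_63374d34.N902.OP.GeoU
import Pool.Agent.Helper71.ZN.OptZ

/-!
# Optimal subvarieties with dense sets of points in large groups, and Zilber's conjecture
-/

set_option autoImplicit false
set_option linter.unusedSectionVars false

namespace Pool.Agent.Helper71.ZN

open Finset Module
open Pool.Agent.R948 Pool.Agent.N902.OP

section

variable {ι : Type} [Fintype ι]

/-- the characters which are constant on a coset of a subtorus -/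
theorem const_char (W : Submodule ℚ (ι → ℚ)) (g : ι → ℂˣ) (a : ι → ℤ)
    (h : ∀ y ∈ cst W g, mon y a = mon g a) : (fun i => (a i : ℚ)) ∈ W := by
  classical
  obtain ⟨d, π, b, hd, hπ, hb⟩ := exists_param W
  rw [← hπ]
  by_contra hne
  obtain ⟨j, hj⟩ : ∃ j, π a j ≠ 0 := by
    by_contra hcon
    push Not at hcon
    exact hne (funext hcon)
  let s : Fin d → ℂˣ := Pi.mulSingle j (Units.mk0 2 two_ne_zero)
  have hmem : par π g ℂ s ∈ cst W g := by
    intro c hc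
    rw [mon_par, (hπ c).2 hc, mon_zero, mul_one]
    rfl
  have h1 := h _ hmem
  rw [mon_par] at h1
  have h2 : uo ℂ (mon g a) = mon g a := by
    apply Units.ext
    rw [val_uo]
    rfl
  rw [h2, mul_eq_left] at h1
  have h3 : mon s (π a) = (Units.mk0 2 two_ne_zero : ℂˣ) ^ (π a j) := by
    rw [mon, Finset.prod_eq_single j]
    · simp [s]
    · intro j' _ hj'
      simp [s, Pi.mulSingle_eq_of_ne hj']
    · intro h
      exact absurd (Finset.mem_univ j) h
  rw [h3] at h1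
  have h4 : (2 : ℂ) ^ (π a j) = 1 := by
    have h5 := congrArg Units.val h1
    simpa using h5
  have h5 : ‖(2 : ℂ) ^ (π a j)‖ = 1 := by rw [h4, norm_one]
  rw [norm_zpow, Complex.norm_ofNat] at h5
  have h6 := zpow_right_injective₀ (a := (2 : ℝ)) two_pos (by norm_num)
    (h5.trans (zpow_zero (2 : ℝ)).symm)
  exact hj h6

theorem rel_le_cst (W : Submodule ℚ (ι → ℚ)) (x : ι → ℂˣ) :
    rel (toTP (cst_sub W x)).pt ≤ rel x ⊓ W := by
  refine le_of_int fun a ha => ?_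
  obtain ⟨N, hN, h⟩ := (rel_pt_iff _ a).1 ha
  refine ⟨(mem_rel_int x a).2 ⟨N, hN, h x (mem_cst_self _ _)⟩, ?_⟩
  have h1 : (fun i => (((N : ℤ) • a) i : ℚ)) ∈ W := by
    refine const_char W x _ fun y hy => ?_
    rw [mon_smul, mon_smul, zpow_natCast, zpow_natCast, h y hy, h x (mem_cst_self _ _)]
  have h2 : (fun i => (a i : ℚ)) = (N : ℚ)⁻¹ • (fun i => (((N : ℤ) • a) i : ℚ)) := by
    have h4 : (N : ℚ) ≠ 0 := by exact_mod_cast hN.ne'
    funext i
    simp only [Pi.smul_apply, smul_eq_mul]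
    push_cast
    rw [← mul_assoc, inv_mul_cancel₀ h4, one_mul]
  rw [h2]
  exact W.smul_mem _ h1

theorem cst_eq_of_mem {W : Submodule ℚ (ι → ℚ)} {g x : ι → ℂˣ} (hx : x ∈ cst W g) :
    cst W g = cst W x := by
  ext y
  exact ⟨fun hy a ha => (hy a ha).trans (hx a ha).symm, fun hy a ha => (hy a ha).trans (hx a ha)⟩

/-- larger cosets have smaller defect -/
theorem defect_mono {W W' : Submodule ℚ (ι → ℚ)} {x : ι → ℂˣ} (h : cst W' x ⊆ cst W x) :
    defect (cst W x) ≤ defect (cst W' x) := by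
  have hW : W ≤ W' := le_of_int fun a ha => const_char W' x a fun y hy => h hy a ha
  have h3 : rel x ⊓ W ≤ rel (toTP (cst_sub W x)).pt := by
    refine le_of_int fun a ha => ?_
    obtain ⟨N, hN, h⟩ := (mem_rel_int x a).1 ha.1
    refine (rel_pt_iff _ a).2 ⟨N, hN, fun y hy => ?_⟩
    rw [hy a ha.2, h]
  rw [defect_formula (cst_sub W x), defect_formula (cst_sub W' x), vdim_cst, vdim_cst]
  have h4 := Submodule.finrank_mono (rel_le_cst W' x)
  have h5 := Submodule.finrank_mono h3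
  have h6 := Submodule.finrank_sup_add_finrank_inf_eq (rel x) W
  have h7 := Submodule.finrank_sup_add_finrank_inf_eq (rel x) W'
  have h8 := Submodule.finrank_mono (sup_le_sup_left hW (rel x))
  omega

/-- the points with coordinates in a group -/
def pts (Γ : Subgroup ℂˣ) (A : Set (ι → ℂˣ)) : Set (ι → ℂˣ) := {x | x ∈ A ∧ ∀ i, x i ∈ Γ}

/-- Zariski density -/
def DenseIn (B A : Set (ι → ℂˣ)) : Prop :=
  ∀ f : MvPolynomial ι ℂ, (∀ x ∈ B, MvPolynomial.eval (fun i => (x i : ℂ)) f = 0) →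
    ∀ x ∈ A, MvPolynomial.eval (fun i => (x i : ℂ)) f = 0

theorem DenseIn.subset {A B C : Set (ι → ℂˣ)} (h : DenseIn B A) (hC : ZClosed C) (hBC : B ⊆ C) :
    A ⊆ C := by
  obtain ⟨S, rfl⟩ := hC
  exact fun x hx f hf => h f (fun y hy => hBC hy f hf) x hx

theorem DenseIn.nonempty {A B : Set (ι → ℂˣ)} (h : DenseIn B A) (hA : A.Nonempty) :
    B.Nonempty := by
  by_contra hB
  rw [Set.not_nonempty_iff_eq_empty] at hB
  obtain ⟨x, hx⟩ := hA
  have h1 := h 1 (fun y hy => by rw [hB] at hy; exact hy.elim) x hx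
  rw [map_one] at h1
  exact one_ne_zero h1

/-- a subvariety with a dense set of points in a finite union of closed sets -/
theorem dense_cover {A B : Set (ι → ℂˣ)} (hA : Subvariety A) (h : DenseIn B A)
    {𝒞 : Set (Set (ι → ℂˣ))} (h𝒞 : 𝒞.Finite) (hcl : ∀ C ∈ 𝒞, ZClosed C)
    (hB : ∀ x ∈ B, ∃ C ∈ 𝒞, x ∈ C) : ∃ C ∈ 𝒞, A ⊆ C := by
  classical
  have hempty : ZClosed (∅ : Set (ι → ℂˣ)) := ⟨{1}, by
    ext x
    simp [zeros]⟩
  let F : Set (ι → ℂˣ) → Set (ι → ℂˣ) := fun C => if C ∈ 𝒞 then C else ∅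
  have hF : ∀ C, ZClosed (F C) := by
    intro C
    by_cases hC : C ∈ 𝒞
    · simp only [F, if_pos hC]
      exact hcl C hC
    · simp only [F, if_neg hC]
      exact hempty
  have hU : ∀ s : Finset (Set (ι → ℂˣ)), ZClosed (⋃ C ∈ s, F C) := by
    intro s
    have h2 := t_closed_union s F
    have h3 : ∀ C, tcl (F C) = F C := fun C => (hF C).eq
    simp only [h3] at h2
    exact h2
  have h1 : A ⊆ ⋃ C ∈ h𝒞.toFinset, F C := by
    refine h.subset (hU _) fun x hx => ?_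
    obtain ⟨C, hC, hxC⟩ := hB x hx
    refine Set.mem_iUnion₂.2 ⟨C, h𝒞.mem_toFinset.2 hC, ?_⟩
    simp only [F, if_pos hC]
    exact hxC
  obtain ⟨C, hC, hAC⟩ := t_finite_union hA h𝒞.toFinset F hF h1
  have hC' := h𝒞.mem_toFinset.1 hC
  simp only [F, if_pos hC'] at hAC
  exact ⟨C, hC', hAC⟩

/-- subvarieties with dense sets of points in the group are cosets -/
theorem eq_coset {Γ : Subgroup ℂˣ} (hM : MannG Γ) (hΓ : Γ ≤ algUnits) {A B : Set (ι → ℂˣ)}
    (hA : Subvariety A) (hB : B ⊆ pts Γ A) (h : DenseIn B A) :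
    ∃ x ∈ B, ∃ W : Submodule ℚ (ι → ℚ), A = cst W x := by
  obtain ⟨𝒞, h𝒞, h1, h2⟩ := mordell_lang hM hΓ hA.closed
  obtain ⟨C, hC, hAC⟩ := dense_cover hA h h𝒞 (fun C hC => by
    obtain ⟨-, W, g, -, rfl⟩ := h1 C hC
    exact cst_closed W g) (fun x hx => by
    obtain ⟨W, hW⟩ := h2 x (hB hx).1 (hB hx).2
    exact ⟨_, hW, mem_cst_self _ _⟩)
  obtain ⟨hCA, W, g, -, rfl⟩ := h1 C hC
  obtain ⟨x, hx⟩ := h.nonempty hA.nonempty
  refine ⟨x, hx, W, ?_⟩
  rw [← cst_eq_of_mem (hAC (hB hx).1)]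
  exact Set.Subset.antisymm hAC hCA

/-- **Finitely many optimal subvarieties with dense sets of points in the group** -/
theorem finite_optimal {Γ : Subgroup ℂˣ} (hM : MannG Γ) (hΓ : Γ ≤ algUnits)
    {V : Set (ι → ℂˣ)} (hV : ZClosed V) :
    {A : Set (ι → ℂˣ) | Optimal A V ∧ DenseIn (pts Γ A) A}.Finite := by
  obtain ⟨𝒞, h𝒞, h1, h2⟩ := mordell_lang hM hΓ hV
  refine h𝒞.subset ?_
  rintro A ⟨⟨hA, hAV, hopt⟩, hd⟩
  obtain ⟨C, hC, hAC⟩ := dense_cover hA hd h𝒞 (fun C hC => by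
    obtain ⟨-, W, g, -, rfl⟩ := h1 C hC
    exact cst_closed W g) (fun x hx => by
    obtain ⟨W, hW⟩ := h2 x (hAV hx.1) hx.2
    exact ⟨_, hW, mem_cst_self _ _⟩)
  by_cases hAC' : A = C
  · rw [hAC']
    exact hC
  obtain ⟨x, hx, W', rfl⟩ := eq_coset hM hΓ hA (Set.Subset.refl _) hd
  obtain ⟨hCV, W, g, -, rfl⟩ := h1 C hC
  have he := cst_eq_of_mem (hAC hx.1)
  rw [he] at hAC hAC' hCV
  exact absurd (defect_mono hAC) (hopt _ (cst_sub W x)
    ⟨hAC, fun h => hAC' (Set.Subset.antisymm hAC h)⟩ hCV)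

end

/-- The set `U(Y)` of the points of `Y` on algebraic subgroups `H` with `dim Y + dim H ≤ n - 1`. -/
def U {n : ℕ} (Y : Set (Fin n → ℂˣ)) : Set (Fin n → ℂˣ) :=
  {x | x ∈ Y ∧ ∃ Λ : Submodule ℤ (Fin n → ℤ), vdim Y + (n - Module.finrank ℤ Λ) + 1 ≤ n ∧
    ∀ a ∈ Λ, ∏ i, x i ^ a i = 1}

/-- **Zilber's conjecture for the points in the group** -/
theorem zilber {Γ : Subgroup ℂˣ} (hM : MannG Γ) (hΓ : Γ ≤ algUnits) {n : ℕ}
    {Y : Set (Fin n → ℂˣ)} (hY : Subvariety Y) (hd : DenseIn (U Y ∩ pts Γ Y) Y) :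
    ∃ a : Fin n → ℤ, a ≠ 0 ∧ ∀ x ∈ Y, ∏ i, x i ^ a i = 1 := by
  obtain ⟨x, hx, W, hYW⟩ := eq_coset hM hΓ hY Set.inter_subset_right hd
  obtain ⟨⟨hxY, Λ, h2, h3⟩, -⟩ := hx
  have h4 := le_dr x Λ h3
  have h0 := dr_le_card x
  rw [Fintype.card_fin] at h0
  have h5 : (vdim Y : ℤ) = n - finrank ℚ W := by
    rw [hYW, vdim_cst, Fintype.card_fin]
  have h6 : finrank ℚ (rel x) = dr x := rfl
  have h7 := Submodule.finrank_sup_add_finrank_inf_eq (rel x) W
  have h8 : finrank ℚ (rel x ⊔ W : Submodule ℚ (Fin n → ℚ)) ≤ n := by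
    have h := Submodule.finrank_le (rel x ⊔ W)
    rwa [Module.finrank_pi, Fintype.card_fin] at h
  have h9 : 0 < finrank ℚ (rel x ⊓ W : Submodule ℚ (Fin n → ℚ)) := by omega
  have h10 : rel x ⊓ W ≠ ⊥ := by
    intro h
    rw [h, finrank_bot] at h9
    exact absurd h9 (lt_irrefl 0)
  obtain ⟨v, hv, hv0⟩ := Submodule.exists_mem_ne_zero_of_ne_bot h10
  obtain ⟨N, hN, b, hb, hxb⟩ := exists_int_of_mem_rel hv.1
  have hbv : (fun i => (b i : ℚ)) = (N : ℚ) • v := by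
    funext i
    rw [hb]
    rfl
  refine ⟨b, ?_, ?_⟩
  · rintro rfl
    apply hv0
    have h11 : (N : ℚ) ≠ 0 := by exact_mod_cast hN.ne'
    have h12 : (N : ℚ) • v = 0 := by
      rw [← hbv]
      funext i
      simp
    exact (smul_eq_zero.1 h12).resolve_left h11
  · intro y hy
    rw [hYW] at hy
    have h11 := hy b (by rw [hbv]; exact W.smul_mem _ hv.2)
    rw [hxb] at h11
    exact h11

end Pool.Agent.Helper71.ZN
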